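import Mathlib

/-! # Turán's inequality for a finite set of primes -/

set_option autoImplicit false

namespace Pool.Agent.Q239.GPD

open Finset

/-- the additive function -/
noncomputable def Y (P : Finset ℕ) (g : ℕ → ℝ) (n : ℕ) : ℝ := ∑ p ∈ P, if p ∣ n then g p else 0

/-- its mean -/
noncomputable def mu (P : Finset ℕ) (g : ℕ → ℝ) : ℝ := ∑ p ∈ P, g p / p

lemma card_dvd (N r : ℕ) : ((Finset.Icc 1 N).filter (fun n => r ∣ n)).card = N / r := by
  have := Nat.Ioc_filter_dvd_card_eq_div N r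
  rw [← this]
  congr 1

lemma sum_ind_dvd (N r : ℕ) : ∑ n ∈ Finset.Icc 1 N, (if r ∣ n then (1 : ℝ) else 0) = ((N / r : ℕ) : ℝ) := by
  rw [← card_dvd N r, Finset.card_filter]
  push_cast
  rfl

lemma mu_nonneg {P : Finset ℕ} {g : ℕ → ℝ} (hg : ∀ p ∈ P, 0 ≤ g p) : 0 ≤ mu P g :=
  Finset.sum_nonneg fun p hp => div_nonneg (hg p hp) (Nat.cast_nonneg p)

lemma turan {P : Finset ℕ} {g : ℕ → ℝ} {c : ℝ} (hP : ∀ p ∈ P, p.Prime) (hg : ∀ p ∈ P, 0 ≤ g p)
    (hgc : ∀ p ∈ P, g p ≤ c) (N : ℕ) :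
    ∑ n ∈ Finset.Icc 1 N, (Y P g n - mu P g) ^ 2 ≤ c * mu P g * N + 2 * mu P g * (c * P.card) := by
  set μ := mu P g with hμ
  have hμ0 : 0 ≤ μ := mu_nonneg hg
  have hN : (0 : ℝ) ≤ N := Nat.cast_nonneg N
  -- first moment
  have h1 : (N : ℝ) * μ - c * P.card ≤ ∑ n ∈ Finset.Icc 1 N, Y P g n := by
    have e : ∑ n ∈ Finset.Icc 1 N, Y P g n = ∑ p ∈ P, g p * ((N / p : ℕ) : ℝ) := by
      unfold Y
      rw [Finset.sum_comm]
      refine Finset.sum_congr rfl fun p _ => ?_
      rw [← sum_ind_dvd N p, Finset.mul_sum]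
      refine Finset.sum_congr rfl fun n _ => ?_
      split_ifs <;> simp
    rw [e, hμ, mu, Finset.mul_sum]
    have h2 : c * (P.card : ℝ) = ∑ _p ∈ P, c := by rw [Finset.sum_const, nsmul_eq_mul]; ring
    rw [h2, ← Finset.sum_sub_distrib]
    refine Finset.sum_le_sum fun p hp => ?_
    have hpr : (0 : ℝ) < p := by exact_mod_cast (hP p hp).pos
    have h3 : (N : ℝ) / p - 1 < ((N / p : ℕ) : ℝ) := by
      have := Nat.lt_div_mul_add (hP p hp).pos (a := N)
      have h4 : (N : ℝ) < ((N / p : ℕ) : ℝ) * p + p := by exact_mod_cast this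
      rw [sub_lt_iff_lt_add, div_lt_iff₀ hpr]
      linarith
    have h5 : g p * ((N : ℝ) / p - 1) ≤ g p * ((N / p : ℕ) : ℝ) :=
      mul_le_mul_of_nonneg_left h3.le (hg p hp)
    have h6 := hgc p hp
    have h7 : (N : ℝ) * (g p / p) - c ≤ g p * ((N : ℝ) / p - 1) := by
      have : (N : ℝ) * (g p / p) = g p * ((N : ℝ) / p) := by ring
      rw [this]; linarith
    linarith
  -- second moment
  have h2 : ∑ n ∈ Finset.Icc 1 N, (Y P g n) ^ 2 ≤ N * μ ^ 2 + c * μ * N := by
    have e : ∑ n ∈ Finset.Icc 1 N, (Y P g n) ^ 2 =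
        ∑ p ∈ P, ∑ q ∈ P, g p * g q * ∑ n ∈ Finset.Icc 1 N, (if p ∣ n ∧ q ∣ n then (1 : ℝ) else 0) := by
      have e1 : ∀ n, (Y P g n) ^ 2 = ∑ p ∈ P, ∑ q ∈ P, g p * g q * (if p ∣ n ∧ q ∣ n then (1 : ℝ) else 0) := by
        intro n
        rw [sq, Y, Finset.sum_mul_sum]
        refine Finset.sum_congr rfl fun p _ => Finset.sum_congr rfl fun q _ => ?_
        by_cases hp : p ∣ n <;> by_cases hq : q ∣ n <;> simp [hp, hq]
      simp_rw [e1]
      rw [Finset.sum_comm]
      refine Finset.sum_congr rfl fun p _ => ?_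
      rw [Finset.sum_comm]
      refine Finset.sum_congr rfl fun q _ => ?_
      rw [Finset.mul_sum]
    rw [e]
    have h3 : ∀ p ∈ P, ∀ q ∈ P, ∑ n ∈ Finset.Icc 1 N, (if p ∣ n ∧ q ∣ n then (1 : ℝ) else 0) ≤
        N / p / q + (if p = q then (N : ℝ) / p else 0) := by
      intro p hp q hq
      have hpr : (0 : ℝ) < p := by exact_mod_cast (hP p hp).pos
      have hqr : (0 : ℝ) < q := by exact_mod_cast (hP q hq).pos
      by_cases hpq : p = q
      · subst hpq
        rw [if_pos rfl]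
        simp only [and_self]
        rw [sum_ind_dvd]
        have h4 : ((N / p : ℕ) : ℝ) ≤ N / p := Nat.cast_div_le
        have h5 : (0 : ℝ) ≤ N / p / p := by positivity
        linarith
      · rw [if_neg hpq, add_zero]
        have hc : Nat.Coprime p q := (Nat.coprime_primes (hP p hp) (hP q hq)).2 hpq
        have e2 : ∀ n, (if p ∣ n ∧ q ∣ n then (1 : ℝ) else 0) = if p * q ∣ n then 1 else 0 := by
          intro n
          congr 1
          rw [eq_iff_iff]
          exact ⟨fun h => hc.mul_dvd_of_dvd_of_dvd h.1 h.2,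
            fun h => ⟨(dvd_mul_right p q).trans h, (dvd_mul_left q p).trans h⟩⟩
        simp_rw [e2]
        rw [sum_ind_dvd]
        have h4 : ((N / (p * q) : ℕ) : ℝ) ≤ N / ((p * q : ℕ) : ℝ) := Nat.cast_div_le
        rw [Nat.cast_mul, ← div_div] at h4
        exact h4
    calc ∑ p ∈ P, ∑ q ∈ P, g p * g q * ∑ n ∈ Finset.Icc 1 N, (if p ∣ n ∧ q ∣ n then (1 : ℝ) else 0)
        ≤ ∑ p ∈ P, ∑ q ∈ P, g p * g q * (N / p / q + (if p = q then (N : ℝ) / p else 0)) := by
          refine Finset.sum_le_sum fun p hp => Finset.sum_le_sum fun q hq => ?_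
          exact mul_le_mul_of_nonneg_left (h3 p hp q hq) (mul_nonneg (hg p hp) (hg q hq))
      _ = N * μ ^ 2 + ∑ p ∈ P, g p * g p * (N / p) := by
          have e3 : ∀ p ∈ P, ∑ q ∈ P, g p * g q * (N / p / q + (if p = q then (N : ℝ) / p else 0)) =
              (∑ q ∈ P, g p * g q * (N / p / q)) + g p * g p * (N / p) := by
            intro p hp
            have : ∀ q ∈ P, g p * g q * (N / p / q + (if p = q then (N : ℝ) / p else 0)) =
                g p * g q * (N / p / q) + (if p = q then g p * g q * (N / p) else 0) := by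
              intro q _
              split_ifs <;> ring
            rw [Finset.sum_congr rfl this, Finset.sum_add_distrib, Finset.sum_ite_eq, if_pos hp]
          rw [Finset.sum_congr rfl e3, Finset.sum_add_distrib]
          congr 1
          rw [hμ, mu, sq, Finset.sum_mul_sum, Finset.mul_sum]
          refine Finset.sum_congr rfl fun p _ => ?_
          rw [Finset.mul_sum]
          refine Finset.sum_congr rfl fun q _ => ?_
          ring
      _ ≤ N * μ ^ 2 + c * μ * N := by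
          have : ∑ p ∈ P, g p * g p * (N / p) ≤ c * μ * N := by
            rw [hμ, mu, mul_assoc, mul_comm (∑ p ∈ P, g p / p) (N : ℝ), Finset.mul_sum, Finset.mul_sum]
            refine Finset.sum_le_sum fun p hp => ?_
            have h4 : g p * g p ≤ c * g p := mul_le_mul_of_nonneg_right (hgc p hp) (hg p hp)
            have h5 : (0 : ℝ) ≤ N / p := by positivity
            calc g p * g p * (N / p) ≤ c * g p * (N / p) := mul_le_mul_of_nonneg_right h4 h5
              _ = c * (N * (g p / p)) := by ring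
          linarith
  have h3 : ∑ n ∈ Finset.Icc 1 N, (Y P g n - μ) ^ 2 =
      ∑ n ∈ Finset.Icc 1 N, (Y P g n) ^ 2 - 2 * μ * ∑ n ∈ Finset.Icc 1 N, Y P g n + N * μ ^ 2 := by
    have : ∀ n, (Y P g n - μ) ^ 2 = (Y P g n) ^ 2 - 2 * μ * Y P g n + μ ^ 2 := fun n => by ring
    simp_rw [this]
    rw [Finset.sum_add_distrib, Finset.sum_sub_distrib, ← Finset.mul_sum, Finset.sum_const,
      Nat.card_Icc, nsmul_eq_mul]
    push_cast
    ring
  rw [h3]
  have h4 : 2 * μ * ((N : ℝ) * μ - c * P.card) ≤ 2 * μ * ∑ n ∈ Finset.Icc 1 N, Y P g n :=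
    mul_le_mul_of_nonneg_left h1 (by positivity)
  have h5 : 2 * μ * ((N : ℝ) * μ - c * P.card) = 2 * (N * μ ^ 2) - 2 * μ * (c * P.card) := by ring
  linarith

lemma cheb {P : Finset ℕ} {g : ℕ → ℝ} {c : ℝ} (hP : ∀ p ∈ P, p.Prime) (hg : ∀ p ∈ P, 0 ≤ g p)
    (hgc : ∀ p ∈ P, g p ≤ c) (N : ℕ) {t : ℝ} (ht : 0 < t) :
    (((Finset.Icc 1 N).filter (fun n => mu P g + t ≤ Y P g n)).card : ℝ) * t ^ 2 ≤
      c * mu P g * N + 2 * mu P g * (c * P.card) := by
  refine le_trans ?_ (turan hP hg hgc N)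
  rw [← nsmul_eq_mul, ← Finset.sum_const]
  refine (Finset.sum_le_sum (f := fun _ => t ^ 2) (g := fun n => (Y P g n - mu P g) ^ 2)
    fun n hn => ?_).trans
    (Finset.sum_le_sum_of_subset_of_nonneg (Finset.filter_subset _ _) fun n _ _ => sq_nonneg _)
  rw [Finset.mem_filter] at hn
  have : t ≤ Y P g n - mu P g := by linarith [hn.2]
  gcongr

end Pool.Agent.Q239.GPD
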