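import Mathlib
import Pool.Agent.H413R3.GPFinal

/-! # Geometric-progression-free sets: parametrisation, Rankin's set, descent to unblocked elements -/

set_option autoImplicit false

namespace Pool.Agent.Q239.GPD

open Pool.Agent.H413R3

/-- `A` contains no `a < b < c` with `b ^ 2 = a * c`. -/
def GF (A : Set ℕ) : Prop := ∀ a ∈ A, ∀ b ∈ A, ∀ c ∈ A, a < b → b < c → b ^ 2 ≠ a * c

/-- `n` is the largest term of a geometric progression whose two other terms are in `A`. -/
def Blocked (A : Set ℕ) (n : ℕ) : Prop := ∃ a ∈ A, ∃ b ∈ A, a < b ∧ b < n ∧ b ^ 2 = a * n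

/-- the elements outside `A` which are not blocked from below -/
def Un (A : Set ℕ) : Set ℕ := {n | 1 ≤ n ∧ n ∉ A ∧ ¬ Blocked A n}

lemma param {a b c : ℕ} (ha : 1 ≤ a) (hab : a < b) (h : b ^ 2 = a * c) :
    ∃ μ u v : ℕ, 1 ≤ μ ∧ 1 ≤ u ∧ u < v ∧ Nat.Coprime u v ∧ a = μ * u ^ 2 ∧ b = μ * u * v ∧
      c = μ * v ^ 2 := by
  obtain ⟨g, u, v, hg, hcop, ha', hb'⟩ := Nat.exists_coprime' (m := a) (n := b)
    (Nat.gcd_pos_of_pos_left _ (by omega))
  have hu : 1 ≤ u := by
    rcases Nat.eq_zero_or_pos u with h0 | h0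
    · subst h0; omega
    · exact h0
  have huv : u < v := by
    rw [ha', hb'] at hab
    exact Nat.lt_of_mul_lt_mul_right hab
  -- `g * v ^ 2 = u * c`
  have h1 : g * v ^ 2 = u * c := by
    have h2 : g * (g * v ^ 2) = g * (u * c) := by
      rw [ha', hb'] at h
      linear_combination h
    exact Nat.eq_of_mul_eq_mul_left hg h2
  have hdvd : u ∣ g := by
    have h3 : u ∣ g * v ^ 2 := ⟨c, h1⟩
    exact (Nat.Coprime.pow_right 2 hcop).dvd_of_dvd_mul_right h3
  obtain ⟨μ, rfl⟩ := hdvd
  have hμ : 1 ≤ μ := by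
    rcases Nat.eq_zero_or_pos μ with h0 | h0
    · subst h0; simp at hg
    · exact h0
  refine ⟨μ, u, v, hμ, hu, huv, hcop, by rw [ha']; ring, by rw [hb']; ring, ?_⟩
  have h4 : u * c = u * (μ * v ^ 2) := by rw [← h1]; ring
  exact Nat.eq_of_mul_eq_mul_left (by omega) h4

/-! ### Rankin's set -/

lemma digit_shift : ∀ e : ℕ, ∃ f : ℕ, 2 * f ≤ e ∧ GP.InA (e - f) ∧ GP.InA (e - 2 * f) ∧
    (¬ GP.InA e → 1 ≤ f) ∧ (e = 0 → f = 0) := by
  intro e
  induction e using Nat.strong_induction_on with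
  | _ e ih =>
    rcases Nat.eq_zero_or_pos e with rfl | he
    · exact ⟨0, le_rfl, GP.inA_zero, GP.inA_zero, fun h => absurd GP.inA_zero h, fun _ => rfl⟩
    · obtain ⟨f, h1, h2, h3, h4, _⟩ := ih (e / 3) (by omega)
      rcases (by omega : e % 3 ≤ 1 ∨ e % 3 = 2) with hr | hr
      · refine ⟨3 * f, by omega, ?_, ?_, ?_, fun h => by omega⟩
        · rw [GP.inA_iff]
          have e1 : (e - 3 * f) % 3 = e % 3 := by omega
          have e2 : (e - 3 * f) / 3 = e / 3 - f := by omega
          rw [e1, e2]; exact ⟨hr, h2⟩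
        · rw [GP.inA_iff]
          have e1 : (e - 2 * (3 * f)) % 3 = e % 3 := by omega
          have e2 : (e - 2 * (3 * f)) / 3 = e / 3 - 2 * f := by omega
          rw [e1, e2]; exact ⟨hr, h3⟩
        · intro hn
          have : ¬ GP.InA (e / 3) := fun h => hn ((GP.inA_iff e).2 ⟨hr, h⟩)
          have := h4 this
          omega
      · refine ⟨3 * f + 1, by omega, ?_, ?_, fun _ => by omega, fun h => by omega⟩
        · rw [GP.inA_iff]
          have e1 : (e - (3 * f + 1)) % 3 = 1 := by omega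
          have e2 : (e - (3 * f + 1)) / 3 = e / 3 - f := by omega
          rw [e1, e2]; exact ⟨le_rfl, h2⟩
        · rw [GP.inA_iff]
          have e1 : (e - 2 * (3 * f + 1)) % 3 = 0 := by omega
          have e2 : (e - 2 * (3 * f + 1)) / 3 = e / 3 - 2 * f := by omega
          rw [e1, e2]; exact ⟨by norm_num, h3⟩

/-- the shift of the exponents -/
noncomputable def sh (e : ℕ) : ℕ := (digit_shift e).choose

lemma sh_spec (e : ℕ) : 2 * sh e ≤ e ∧ GP.InA (e - sh e) ∧ GP.InA (e - 2 * sh e) ∧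
    (¬ GP.InA e → 1 ≤ sh e) ∧ (e = 0 → sh e = 0) := (digit_shift e).choose_spec

lemma sh_zero : sh 0 = 0 := (sh_spec 0).2.2.2.2 rfl

/-- the numbers outside Rankin's set are blocked by Rankin's set -/
lemma greedy_blocks {n : ℕ} (hn : 1 ≤ n) (h : n ∉ GP.Greedy) : Blocked GP.Greedy n := by
  have hn0 : n ≠ 0 := by omega
  set F : ℕ →₀ ℕ := n.factorization.mapRange sh sh_zero with hF
  have hFp : ∀ p ∈ F.support, p.Prime := by
    intro p hp
    rw [Finsupp.mem_support_iff, hF, Finsupp.mapRange_apply] at hp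
    by_contra hnp
    rw [Nat.factorization_eq_zero_of_not_prime _ hnp, sh_zero] at hp
    exact hp rfl
  set k : ℕ := F.prod (fun p e => p ^ e) with hk
  have hkf : k.factorization = F := Nat.prod_pow_factorization_eq_self hFp
  have hkp : ∀ p, k.factorization p = sh (n.factorization p) := by
    intro p; rw [hkf, hF, Finsupp.mapRange_apply]
  have hk0 : k ≠ 0 := by
    rw [hk, Finsupp.prod]
    exact Finset.prod_ne_zero_iff.2 fun p hp => pow_ne_zero _ (hFp p hp).ne_zero
  have hk2 : k ^ 2 ∣ n := by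
    rw [← Nat.factorization_le_iff_dvd (pow_ne_zero 2 hk0) hn0]
    intro p
    rw [Nat.factorization_pow, Finsupp.smul_apply, hkp, smul_eq_mul]
    exact (sh_spec _).1
  obtain ⟨a, ha⟩ := hk2
  have ha0 : a ≠ 0 := by rintro rfl; omega
  have hk1 : 2 ≤ k := by
    by_contra hlt
    have hk1 : k = 1 := by omega
    apply h
    refine ⟨hn, fun p => ?_⟩
    by_contra hno
    have h1 := (sh_spec (n.factorization p)).2.2.2.1 hno
    rw [← hkp, hk1] at h1
    simp at h1
  have hnf : ∀ p, n.factorization p = 2 * sh (n.factorization p) + a.factorization p := by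
    intro p
    have : n.factorization = (k ^ 2 * a).factorization := by rw [← ha]
    have h2 : n.factorization p = (k ^ 2 * a).factorization p := by rw [← this]
    rw [Nat.factorization_mul (pow_ne_zero 2 hk0) ha0, Finsupp.add_apply, Nat.factorization_pow,
      Finsupp.smul_apply, hkp, smul_eq_mul] at h2
    exact h2
  refine ⟨a, ⟨by omega, fun p => ?_⟩, k * a, ⟨Nat.one_le_iff_ne_zero.2 (mul_ne_zero hk0 ha0), fun p => ?_⟩,
    ?_, ?_, ?_⟩
  · have h1 := (sh_spec (n.factorization p)).2.2.1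
    have h2 := hnf p
    have : n.factorization p - 2 * sh (n.factorization p) = a.factorization p := by omega
    rw [this] at h1
    exact h1
  · have h1 := (sh_spec (n.factorization p)).2.1
    have h2 := hnf p
    have : n.factorization p - sh (n.factorization p) = (k * a).factorization p := by
      rw [Nat.factorization_mul hk0 ha0, Finsupp.add_apply, hkp]; omega
    rw [this] at h1
    exact h1
  · nlinarith [Nat.pos_of_ne_zero ha0]
  · have hapos := Nat.pos_of_ne_zero ha0
    rw [ha]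
    have : k * a < k * (k * a) := by
      have : k * a * 1 < k * a * k := Nat.mul_lt_mul_of_pos_left (by omega) (by positivity)
      linarith [this]
    calc k * a < k * (k * a) := this
      _ = k ^ 2 * a := by ring
  · rw [ha]; ring

lemma greedy_free : GF GP.Greedy := by
  intro a ha b hb c hc hab hbc heq
  have ha1 := ha.1
  have hb1 := hb.1
  have hc1 := hc.1
  have hfac : ∀ p, 2 * b.factorization p = a.factorization p + c.factorization p := by
    intro p
    have h1 : (b ^ 2).factorization = (a * c).factorization := by rw [heq]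
    have h2 : (b ^ 2).factorization p = (a * c).factorization p := by rw [h1]
    rw [Nat.factorization_mul (by omega) (by omega), Finsupp.add_apply, Nat.factorization_pow,
      Finsupp.smul_apply, smul_eq_mul] at h2
    exact h2
  have : a = b := by
    apply Nat.eq_of_factorization_eq (by omega) (by omega)
    intro p
    exact (GP.ap_eq (hfac p).symm (ha.2 p) (hb.2 p) (hc.2 p)).1
  omega

/-! ### The descent -/

/-- the points where `A` and `B` differ -/
def Di (A B : Set ℕ) : Set ℕ := {n | 1 ≤ n ∧ ¬ (n ∈ A ↔ n ∈ B)}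

lemma blocked_descent {A B : Set ℕ} (hA : GF A) {n : ℕ} (hn : n ∈ A)
    (hBp : ∀ n ∈ B, 1 ≤ n) (hb : Blocked B n) :
    ∃ μ u v : ℕ, 1 ≤ μ ∧ 1 ≤ u ∧ u < v ∧ Nat.Coprime u v ∧ n = μ * v ^ 2 ∧
      (μ * u * v ∈ Di A B ∨ μ * u ^ 2 ∈ Di A B) := by
  obtain ⟨a, ha, b, hb, hab, hbn, heq⟩ := hb
  obtain ⟨μ, u, v, h1, h2, h3, h4, h5, h6, h7⟩ := param (hBp a ha) hab heq
  refine ⟨μ, u, v, h1, h2, h3, h4, h7, ?_⟩
  by_contra hno
  push Not at hno
  rw [← h6, ← h5] at hno
  have haA : a ∈ A := by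
    by_contra haA
    exact hno.2 ⟨hBp a ha, fun h => haA (h.2 ha)⟩
  have hbA : b ∈ A := by
    by_contra hbA
    exact hno.1 ⟨hBp b hb, fun h => hbA (h.2 hb)⟩
  exact hA a haA b hbA n hn hab hbn heq

lemma di_comm (A B : Set ℕ) : Di A B = Di B A := by
  ext n; simp only [Di, Set.mem_ofPred_eq]; tauto

lemma step {A G : Set ℕ} (hA : GF A) (hAp : ∀ n ∈ A, 1 ≤ n) (hG : GF G) (hGp : ∀ n ∈ G, 1 ≤ n)
    (hGb : ∀ n, 1 ≤ n → n ∉ G → Blocked G n) {n : ℕ} (h : n ∈ Di A G) :
    n ∈ Un A ∨ ∃ μ u v : ℕ, 1 ≤ μ ∧ 1 ≤ u ∧ u < v ∧ Nat.Coprime u v ∧ n = μ * v ^ 2 ∧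
      (μ * u * v ∈ Di A G ∨ μ * u ^ 2 ∈ Di A G) := by
  by_cases hnA : n ∈ A
  · right
    have hnG : n ∉ G := fun h' => h.2 ⟨fun _ => h', fun _ => hnA⟩
    exact blocked_descent hA hnA hGp (hGb n h.1 hnG)
  · have hnG : n ∈ G := by
      by_contra h'
      exact h.2 ⟨fun h'' => absurd h'' hnA, fun h'' => absurd h'' h'⟩
    by_cases hbl : Blocked A n
    · right
      obtain ⟨μ, u, v, h1, h2, h3, h4, h5, h6⟩ := blocked_descent hG hnG hAp hbl
      rw [di_comm G A] at h6
      exact ⟨μ, u, v, h1, h2, h3, h4, h5, h6⟩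
    · left
      exact ⟨h.1, hnA, hbl⟩

lemma sq_dvd {s m v : ℕ} (hm : Squarefree m) (hc : Nat.Coprime s m) (h : v ^ 2 ∣ s * m) :
    v ^ 2 ∣ s := by
  have hvm : Nat.Coprime v m := by
    apply Nat.Coprime.symm
    rw [Nat.coprime_iff_gcd_eq_one]
    by_contra hne
    obtain ⟨q, hq, hqd⟩ := Nat.exists_prime_and_dvd hne
    have hqm : q ∣ m := hqd.trans (Nat.gcd_dvd_left _ _)
    have hqv : q ∣ v := hqd.trans (Nat.gcd_dvd_right _ _)
    have hqs : Nat.Coprime q s := by
      rw [Nat.Prime.coprime_iff_not_dvd hq]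
      intro h'
      have := Nat.dvd_gcd h' hqm
      rw [hc] at this
      exact hq.one_lt.ne' (Nat.dvd_one.1 this)
    have h1 : q ^ 2 ∣ s * m := (pow_dvd_pow_of_dvd hqv 2).trans h
    have h2 : q ^ 2 ∣ m := (Nat.Coprime.pow_left 2 hqs).dvd_of_dvd_mul_left h1
    have h3 := hm q (by rw [← sq]; exact h2)
    exact hq.one_lt.ne' (Nat.isUnit_iff.1 h3)
  exact (Nat.Coprime.pow_left 2 hvm).dvd_of_dvd_mul_right h

theorem descent {A G : Set ℕ} (hA : GF A) (hAp : ∀ n ∈ A, 1 ≤ n) (hG : GF G) (hGp : ∀ n ∈ G, 1 ≤ n)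
    (hGb : ∀ n, 1 ≤ n → n ∉ G → Blocked G n) {m : ℕ} (hm : Squarefree m) :
    ∀ s : ℕ, Nat.Coprime s m → (∀ q, q.Prime → q ∣ m → s < q ^ 2) → s * m ∈ Di A G →
      ∃ s', 1 ≤ s' ∧ s' ≤ s ∧ s' * m ∈ Un A := by
  intro s
  induction s using Nat.strong_induction_on with
  | _ s ih =>
    intro hc hq hD
    have hs1 : 1 ≤ s := by
      rcases Nat.eq_zero_or_pos s with h0 | h0
      · subst h0; have := hD.1; simp at this
      · exact h0
    rcases step hA hAp hG hGp hGb hD with h | ⟨μ, u, v, h1, h2, h3, h4, h5, h6⟩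
    · exact ⟨s, hs1, le_rfl, h⟩
    · have hv2 : v ^ 2 ∣ s := sq_dvd hm hc (by rw [h5]; exact Dvd.intro_left μ rfl)
      obtain ⟨t, rfl⟩ := hv2
      have hvpos : 0 < v := by omega
      have hμ : μ = t * m := by
        have : v ^ 2 * μ = v ^ 2 * (t * m) := by linarith [h5, mul_assoc (v ^ 2) t m]
        exact Nat.eq_of_mul_eq_mul_left (by positivity) this
      subst hμ
      have ht1 : 1 ≤ t := by
        rcases Nat.eq_zero_or_pos t with h0 | h0
        · subst h0; simp at hs1
        · exact h0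
      -- `u` is coprime to `m`
      have hum : Nat.Coprime u m := by
        rw [Nat.coprime_iff_gcd_eq_one]
        by_contra hne
        obtain ⟨q, hqp, hqd⟩ := Nat.exists_prime_and_dvd hne
        have hqm : q ∣ m := hqd.trans (Nat.gcd_dvd_right _ _)
        have hqu : q ∣ u := hqd.trans (Nat.gcd_dvd_left _ _)
        have h7 := hq q hqp hqm
        have h8 := Nat.le_of_dvd (by omega) hqu
        have h9 : q ^ 2 < v ^ 2 := Nat.pow_lt_pow_left (by omega) (by norm_num)
        have h10 : v ^ 2 ≤ v ^ 2 * t := Nat.le_mul_of_pos_right _ ht1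
        omega
      have hvm : Nat.Coprime v m := by
        have := Nat.Coprime.coprime_mul_right hc
        exact Nat.Coprime.coprime_dvd_left (dvd_pow_self v two_ne_zero) this
      have htm : Nat.Coprime t m := Nat.Coprime.coprime_mul_left hc
      rcases h6 with h6 | h6
      · have e : t * m * u * v = (t * u * v) * m := by ring
        rw [e] at h6
        have hlt : t * u * v < v ^ 2 * t := by
          have : t * u * v < t * v * v := by
            apply Nat.mul_lt_mul_of_pos_right _ hvpos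
            exact Nat.mul_lt_mul_of_pos_left h3 (by omega)
          calc t * u * v < t * v * v := this
            _ = v ^ 2 * t := by ring
        obtain ⟨s', a1, a2, a3⟩ := ih (t * u * v) hlt
          (Nat.Coprime.mul_left (Nat.Coprime.mul_left htm hum) hvm)
          (fun q hqp hqm => hlt.trans (hq q hqp hqm)) h6
        exact ⟨s', a1, a2.trans hlt.le, a3⟩
      · have e : t * m * u ^ 2 = (t * u ^ 2) * m := by ring
        rw [e] at h6
        have hlt : t * u ^ 2 < v ^ 2 * t := by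
          have : u ^ 2 < v ^ 2 := Nat.pow_lt_pow_left h3 (by norm_num)
          calc t * u ^ 2 < t * v ^ 2 := Nat.mul_lt_mul_of_pos_left this (by omega)
            _ = v ^ 2 * t := by ring
        obtain ⟨s', a1, a2, a3⟩ := ih (t * u ^ 2) hlt
          (Nat.Coprime.mul_left htm (Nat.Coprime.pow_left 2 hum))
          (fun q hqp hqm => hlt.trans (hq q hqp hqm)) h6
        exact ⟨s', a1, a2.trans hlt.le, a3⟩

end Pool.Agent.Q239.GPD
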