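import Mathlib
import Pool.Agent.Q239.GPD.Base
import Pool.Agent.H413R3.KGOpt

/-! # Improving a geometric-progression-free set in a short window below `N` -/

set_option autoImplicit false

open Filter Topology

namespace Pool.Agent.Q239.GPD

open Pool.Agent.H413R3
open GP (cnt Bad)

/-- the window `(N (1 - 1 / V), N]` -/
def Wi (V N : ℕ) : Set ℕ := {n | N * (V - 1) < n * V ∧ n ≤ N}

/-- the improved set -/
def Imp (A : Set ℕ) (V N : ℕ) : Set ℕ :=
  {n | 1 ≤ n ∧ n ≤ N ∧ ((n ∈ A ∧ (n * V ≤ N * (V - 1) ∨ n ∉ Bad V)) ∨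
    (N * (V - 1) < n * V ∧ n ∈ Un A ∧ n ∉ Bad V))}

lemma imp_free {A : Set ℕ} (hA : GF A) {V N : ℕ} (hV : 1 ≤ V) : GF (Imp A V N) := by
  intro a ha b hb c hc hab hbc heq
  have key : ∀ n ∈ Imp A V N, n * V ≤ N * (V - 1) → n ∈ A := by
    rintro n ⟨_, _, h | h⟩ h'
    · exact h.1
    · omega
  obtain ⟨μ, u, v, h1, h2, h3, h4, h5, h6, h7⟩ := param ha.1 hab heq
  by_cases hcW : c * V ≤ N * (V - 1)
  · have hb' : b * V ≤ N * (V - 1) := (Nat.mul_le_mul_right V hbc.le).trans hcW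
    have ha' : a * V ≤ N * (V - 1) := (Nat.mul_le_mul_right V hab.le).trans hb'
    exact hA a (key a ha ha') b (key b hb hb') c (key c hc hcW) hab hbc heq
  · push Not at hcW
    have hcB : c ∉ Bad V := by
      obtain ⟨_, _, h | h⟩ := hc
      · rcases h.2 with h' | h'
        · omega
        · exact h'
      · exact h.2.2
    have hvV : v ≤ V := by
      by_contra hlt
      push Not at hlt
      exact hcB ⟨v, hlt, by rw [h7]; exact Dvd.intro_left μ rfl⟩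
    have hbW : b * V ≤ N * (V - 1) := by
      have hcN : c ≤ N := hc.2.1
      have h8 : b * V ≤ c * (V - 1) := by
        obtain ⟨V', rfl⟩ : ∃ V', V = V' + 1 := ⟨V - 1, by omega⟩
        obtain ⟨v', rfl⟩ : ∃ v', v = v' + 1 := ⟨v - 1, by omega⟩
        have hv' : v' ≤ V' := by omega
        have hu' : u ≤ v' := by omega
        rw [h6, h7, Nat.add_sub_cancel]
        calc μ * u * (v' + 1) * (V' + 1) ≤ μ * v' * (v' + 1) * (V' + 1) := by gcongr
          _ = μ * (v' + 1) * (v' * V' + v') := by ring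
          _ ≤ μ * (v' + 1) * (v' * V' + V') := by gcongr
          _ = μ * (v' + 1) ^ 2 * V' := by ring
      exact h8.trans (Nat.mul_le_mul_right _ hcN)
    have haW : a * V ≤ N * (V - 1) := (Nat.mul_le_mul_right V hab.le).trans hbW
    have haA := key a ha haW
    have hbA := key b hb hbW
    obtain ⟨_, _, h | h⟩ := hc
    · exact hA a haA b hbA c h.1 hab hbc heq
    · exact h.2.1.2.2 ⟨a, haA, b, hbA, hab, hbc, heq⟩

lemma cnt_imp {A : Set ℕ} {V N : ℕ} :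
    cnt A N + cnt (Un A ∩ Wi V N) N ≤ cnt (Imp A V N) N + cnt (Bad V ∩ Wi V N) N := by
  unfold cnt
  have f1 : (A ∩ Set.Icc 1 N).Finite := (Set.finite_Icc 1 N).inter_of_right _
  have f2 : (Un A ∩ Wi V N ∩ Set.Icc 1 N).Finite := (Set.finite_Icc 1 N).inter_of_right _
  have f3 : (Imp A V N ∩ Set.Icc 1 N).Finite := (Set.finite_Icc 1 N).inter_of_right _
  have f4 : (Bad V ∩ Wi V N ∩ Set.Icc 1 N).Finite := (Set.finite_Icc 1 N).inter_of_right _
  rw [← Set.ncard_union_eq _ f1 f2]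
  · refine (Set.ncard_le_ncard ?_ (f3.union f4)).trans (Set.ncard_union_le _ _)
    rintro n (⟨h1, h2, h3⟩ | ⟨⟨h1, h2⟩, h3, h4⟩)
    · by_cases hb : n ∈ Bad V
      · by_cases hw : n * V ≤ N * (V - 1)
        · left
          exact ⟨⟨h2, h3, Or.inl ⟨h1, Or.inl hw⟩⟩, h2, h3⟩
        · right
          push Not at hw
          exact ⟨⟨hb, hw, h3⟩, h2, h3⟩
      · left
        exact ⟨⟨h2, h3, Or.inl ⟨h1, Or.inr hb⟩⟩, h2, h3⟩
    · by_cases hb : n ∈ Bad V
      · right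
        exact ⟨⟨hb, h2⟩, h3, h4⟩
      · left
        exact ⟨⟨h3, h4, Or.inr ⟨h2.1, h1, hb⟩⟩, h3, h4⟩
  · rw [Set.disjoint_left]
    rintro n ⟨h1, _⟩ ⟨⟨h2, _⟩, _⟩
    exact h2.2.1 h1

lemma mult_count (x N r : ℕ) (hr : 0 < r) (hx : x ≤ N) :
    (((Finset.Ioc x N).filter (fun n => r ∣ n)).card : ℝ) ≤ ((N : ℝ) - x) / r + 1 := by
  have h1 : ((Finset.Ioc 0 N).filter (fun n => r ∣ n)).card = N / r := Nat.Ioc_filter_dvd_card_eq_div N r
  have h2 : ((Finset.Ioc 0 x).filter (fun n => r ∣ n)).card = x / r := Nat.Ioc_filter_dvd_card_eq_div x r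
  have h3 : ((Finset.Ioc 0 x).filter (fun n => r ∣ n)).card +
      ((Finset.Ioc x N).filter (fun n => r ∣ n)).card = ((Finset.Ioc 0 N).filter (fun n => r ∣ n)).card := by
    rw [← Finset.card_union_of_disjoint]
    · congr 1
      rw [← Finset.filter_union, Finset.Ioc_union_Ioc_eq_Ioc (Nat.zero_le x) hx]
    · rw [Finset.disjoint_left]
      intro n hn hn'
      rw [Finset.mem_filter, Finset.mem_Ioc] at hn hn'
      omega
  have h4 : ((Finset.Ioc x N).filter (fun n => r ∣ n)).card = N / r - x / r := by omega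
  have h5 : x / r ≤ N / r := Nat.div_le_div_right hx
  have hrr : (0 : ℝ) < r := by exact_mod_cast hr
  rw [h4, Nat.cast_sub h5]
  have h6 : ((N / r : ℕ) : ℝ) ≤ N / r := Nat.cast_div_le
  have h7 : (x : ℝ) / r < ((x / r : ℕ) : ℝ) + 1 := by
    rw [div_lt_iff₀ hrr]
    have := Nat.lt_div_mul_add hr (a := x)
    have h8 : (x : ℝ) < ((x / r : ℕ) : ℝ) * r + r := by exact_mod_cast this
    linarith
  rw [sub_div]
  linarith

lemma cnt_bad_win {V N : ℕ} (hV : 1 ≤ V) :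
    (cnt (Bad V ∩ Wi V N) N : ℝ) ≤ ((N : ℝ) / V + 1) / V + Nat.sqrt N := by
  classical
  set x := N * (V - 1) / V with hx
  have hVr : (0 : ℝ) < V := by exact_mod_cast hV
  have hxN : x ≤ N := by
    rw [hx]
    apply Nat.div_le_of_le_mul
    rw [mul_comm]
    exact Nat.mul_le_mul_right _ (by omega)
  have hxr : (N : ℝ) - x ≤ N / V + 1 := by
    have h1 := Nat.lt_div_mul_add (by omega : 0 < V) (a := N * (V - 1))
    have h2 : ((N * (V - 1) : ℕ) : ℝ) < (x : ℝ) * V + V := by exact_mod_cast h1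
    rw [Nat.cast_mul, Nat.cast_sub hV, Nat.cast_one] at h2
    have h3 : (N : ℝ) / V * V = N := by field_simp
    have h4 : ((N : ℝ) - x) * V ≤ (N / V + 1) * V := by
      rw [add_mul, h3]
      nlinarith
    exact le_of_mul_le_mul_right h4 hVr
  have hsub : Bad V ∩ Wi V N ∩ Set.Icc 1 N ⊆
      (((Finset.Ioc V (Nat.sqrt N)).biUnion
        (fun r => (Finset.Ioc x N).filter (fun n => r ^ 2 ∣ n)) : Finset ℕ) : Set ℕ) := by
    rintro n ⟨⟨⟨r, hr, hd⟩, hw, hn⟩, h1, h2⟩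
    simp only [Finset.coe_biUnion, Set.mem_iUnion, Finset.mem_coe, Finset.mem_Ioc, Finset.mem_filter]
    have h3 := Nat.le_of_dvd (by omega) hd
    refine ⟨r, ⟨hr, ?_⟩, ⟨?_, hn⟩, hd⟩
    · rw [Nat.le_sqrt']; omega
    · rw [hx, Nat.div_lt_iff_lt_mul (by omega)]
      exact hw
  have h1 : (cnt (Bad V ∩ Wi V N) N : ℝ) ≤ ∑ r ∈ Finset.Ioc V (Nat.sqrt N),
      (((N : ℝ) - x) / ((r ^ 2 : ℕ) : ℝ) + 1) := by
    have h2 : cnt (Bad V ∩ Wi V N) N ≤ ∑ r ∈ Finset.Ioc V (Nat.sqrt N),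
        ((Finset.Ioc x N).filter (fun n => r ^ 2 ∣ n)).card := by
      unfold cnt
      refine (Set.ncard_le_ncard hsub (Finset.finite_toSet _)).trans ?_
      rw [Set.ncard_coe_finset]
      exact Finset.card_biUnion_le
    have h3 : (cnt (Bad V ∩ Wi V N) N : ℝ) ≤ ∑ r ∈ Finset.Ioc V (Nat.sqrt N),
        (((Finset.Ioc x N).filter (fun n => r ^ 2 ∣ n)).card : ℝ) := by exact_mod_cast h2
    refine h3.trans (Finset.sum_le_sum fun r hr => ?_)
    rw [Finset.mem_Ioc] at hr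
    exact mult_count x N (r ^ 2) (by have : 0 < r := by omega
                                     positivity) hxN
  refine h1.trans ?_
  rw [Finset.sum_add_distrib]
  have hNx : (0 : ℝ) ≤ (N : ℝ) - x := by
    have : (x : ℝ) ≤ N := by exact_mod_cast hxN
    linarith
  have h5 : ∑ r ∈ Finset.Ioc V (Nat.sqrt N), ((N : ℝ) - x) / ((r ^ 2 : ℕ) : ℝ) ≤
      ((N : ℝ) / V + 1) / V := by
    have h6 : ∑ r ∈ Finset.Ioc V (Nat.sqrt N), ((r : ℝ) ^ 2)⁻¹ ≤ (V : ℝ)⁻¹ := by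
      by_cases hVs : V ≤ Nat.sqrt N
      · have h7 : ∑ r ∈ Finset.Ioc V (Nat.sqrt N), ((r : ℝ) ^ 2)⁻¹ ≤ (V : ℝ)⁻¹ - ((Nat.sqrt N : ℕ) : ℝ)⁻¹ :=
          sum_Ioc_inv_sq_le_sub (by omega) hVs
        have h8 : (0 : ℝ) ≤ ((Nat.sqrt N : ℕ) : ℝ)⁻¹ := by positivity
        linarith
      · rw [Finset.Ioc_eq_empty (by omega), Finset.sum_empty]; positivity
    calc ∑ r ∈ Finset.Ioc V (Nat.sqrt N), ((N : ℝ) - x) / ((r ^ 2 : ℕ) : ℝ) =
        ((N : ℝ) - x) * ∑ r ∈ Finset.Ioc V (Nat.sqrt N), ((r : ℝ) ^ 2)⁻¹ := by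
          rw [Finset.mul_sum]
          refine Finset.sum_congr rfl fun r _ => ?_
          push_cast
          rw [div_eq_mul_inv]
      _ ≤ ((N : ℝ) - x) * (V : ℝ)⁻¹ := mul_le_mul_of_nonneg_left h6 hNx
      _ ≤ ((N : ℝ) / V + 1) * (V : ℝ)⁻¹ := mul_le_mul_of_nonneg_right hxr (by positivity)
      _ = ((N : ℝ) / V + 1) / V := (div_eq_mul_inv _ _).symm
  have h9 : ∑ _r ∈ Finset.Ioc V (Nat.sqrt N), (1 : ℝ) ≤ Nat.sqrt N := by
    rw [Finset.sum_const, Nat.card_Ioc, nsmul_eq_mul, mul_one]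
    exact_mod_cast Nat.sub_le _ _
  linarith

lemma sqrt_small {ε : ℝ} (hε : 0 < ε) : ∃ N0 : ℕ, ∀ N ≥ N0, ((Nat.sqrt N : ℕ) : ℝ) ≤ ε * N := by
  obtain ⟨k, hk⟩ := exists_nat_gt (1 / ε)
  refine ⟨(k + 1) ^ 2, fun N hN => ?_⟩
  have h1 : k + 1 ≤ Nat.sqrt N := by rw [Nat.le_sqrt']; exact hN
  have h2 : (Nat.sqrt N : ℝ) * Nat.sqrt N ≤ N := by exact_mod_cast Nat.sqrt_le N
  have h3 : (k : ℝ) + 1 ≤ Nat.sqrt N := by exact_mod_cast h1
  have h4 : 1 < ε * Nat.sqrt N := by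
    rw [div_lt_iff₀ hε] at hk
    nlinarith
  have h5 : (0 : ℝ) ≤ Nat.sqrt N := by positivity
  nlinarith

/-- `α` bounds the density of the sets without geometric progressions in `[1, N]`, for large `N` -/
def Extremal (α : ℝ) : Prop := ∀ ε > 0, ∃ N0 : ℕ, ∀ N ≥ N0, ∀ T : Set ℕ, (∀ n ∈ T, 1 ≤ n) → GF T →
  (cnt T N : ℝ) ≤ (α + ε) * N

lemma un_window {α : ℝ} (hα : Extremal α) {A : Set ℕ} (hA : GF A) (hd : KG.Dens A α) {V : ℕ}
    (hV : 1 ≤ V) : ∃ N1 : ℕ, ∀ N ≥ N1, (cnt (Un A ∩ Wi V N) N : ℝ) ≤ 5 * N / V ^ 2 := by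
  have hVr : (0 : ℝ) < V := by exact_mod_cast hV
  set ε : ℝ := 1 / V ^ 2 with hε
  have hεpos : 0 < ε := by positivity
  obtain ⟨N0, hN0⟩ := hα ε hεpos
  obtain ⟨N2, hN2⟩ := sqrt_small (ε := ε / 2) (by positivity)
  have hd' : ∀ᶠ N : ℕ in atTop, α - ε < (cnt A N : ℝ) / N :=
    (hd.eventually (lt_mem_nhds (by linarith : α - ε < α)))
  obtain ⟨N3, hN3⟩ := eventually_atTop.1 hd'
  obtain ⟨N4, hN4⟩ := exists_nat_gt (2 / (V * ε))
  refine ⟨max (max N0 N2) (max N3 (N4 + 1)), fun N hN => ?_⟩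
  have a1 : N0 ≤ N := (le_max_left _ _).trans ((le_max_left _ _).trans hN)
  have a2 : N2 ≤ N := (le_max_right _ _).trans ((le_max_left _ _).trans hN)
  have a3 : N3 ≤ N := (le_max_left _ _).trans ((le_max_right _ _).trans hN)
  have a4 : N4 + 1 ≤ N := (le_max_right _ _).trans ((le_max_right _ _).trans hN)
  have hNpos : (0 : ℝ) < N := by exact_mod_cast (by omega : 0 < N)
  have h1 := hN0 N a1 (Imp A V N) (fun n hn => hn.1) (imp_free hA hV)
  have h2 := hN2 N a2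
  have h3 := hN3 N a3
  rw [lt_div_iff₀ hNpos] at h3
  have h4 : (cnt A N : ℝ) + cnt (Un A ∩ Wi V N) N ≤ cnt (Imp A V N) N + cnt (Bad V ∩ Wi V N) N := by
    exact_mod_cast cnt_imp (A := A) (V := V) (N := N)
  have h5 := cnt_bad_win (V := V) (N := N) hV
  have h6 : ((N : ℝ) / V + 1) / V = ε * N + 1 / V := by
    rw [hε]; field_simp
  have h7 : 1 / (V : ℝ) ≤ ε / 2 * N := by
    have h8 : (N4 : ℝ) ≤ N := by exact_mod_cast (by omega : N4 ≤ N)
    have h9 : 2 / (V * ε) < N := lt_of_lt_of_le hN4 h8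
    rw [div_lt_iff₀ (by positivity)] at h9
    rw [div_le_iff₀ hVr]
    nlinarith
  have h10 : 5 * (N : ℝ) / V ^ 2 = 5 * ε * N := by rw [hε]; ring
  rw [h10]
  linarith

lemma un_lin {α : ℝ} (hα : Extremal α) {A : Set ℕ} (hA : GF A) (hd : KG.Dens A α) {V : ℕ}
    (hV : 1 ≤ V) : ∃ N1 : ℕ, ∀ N, (cnt (Un A) N : ℝ) ≤ 5 * N / V + N1 := by
  obtain ⟨N1, hN1⟩ := un_window hα hA hd hV
  have hVr : (0 : ℝ) < V := by exact_mod_cast hV
  refine ⟨N1, fun N => ?_⟩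
  induction N using Nat.strong_induction_on with
  | _ N ih =>
    by_cases hN : N < N1 + 1
    · have h1 : (cnt (Un A) N : ℝ) ≤ N := by exact_mod_cast KG.cnt_le _ _
      have h2 : (N : ℝ) ≤ N1 := by exact_mod_cast (by omega : N ≤ N1)
      have : (0 : ℝ) ≤ 5 * N / V := by positivity
      linarith
    · push Not at hN
      set x := N * (V - 1) / V with hx
      have hNpos : 0 < N := by omega
      have hxN : x < N := by
        rw [hx, Nat.div_lt_iff_lt_mul (by omega)]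
        exact Nat.mul_lt_mul_of_pos_left (by omega) hNpos
      have h1 := ih x hxN
      have h2 := hN1 N (by omega)
      have h3 : cnt (Un A) N ≤ cnt (Un A) x + cnt (Un A ∩ Wi V N) N := by
        unfold cnt
        refine (Set.ncard_le_ncard ?_ (((Set.finite_Icc 1 x).inter_of_right _).union
          ((Set.finite_Icc 1 N).inter_of_right _))).trans (Set.ncard_union_le _ _)
        rintro n ⟨a1, a2, a3⟩
        by_cases hnx : n ≤ x
        · left; exact ⟨a1, a2, hnx⟩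
        · right
          push Not at hnx
          refine ⟨⟨a1, ?_, a3⟩, a2, a3⟩
          rw [hx, Nat.div_lt_iff_lt_mul (by omega)] at hnx
          exact hnx
      have h3' : (cnt (Un A) N : ℝ) ≤ cnt (Un A) x + cnt (Un A ∩ Wi V N) N := by exact_mod_cast h3
      have hxr : (x : ℝ) ≤ N * (1 - 1 / V) := by
        have h4 : (x : ℝ) ≤ ((N * (V - 1) : ℕ) : ℝ) / V := Nat.cast_div_le
        rw [Nat.cast_mul, Nat.cast_sub hV, Nat.cast_one] at h4
        calc (x : ℝ) ≤ N * ((V : ℝ) - 1) / V := h4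
          _ = N * (1 - 1 / V) := by field_simp
      have h5 : 5 * (x : ℝ) / V ≤ 5 * (N * (1 - 1 / V)) / V := by gcongr
      have h6 : 5 * ((N : ℝ) * (1 - 1 / V)) / V + 5 * N / V ^ 2 = 5 * N / V := by
        field_simp; ring
      linarith

theorem un_zero {α : ℝ} (hα : Extremal α) {A : Set ℕ} (hA : GF A) (hd : KG.Dens A α) {κ : ℝ}
    (hκ : 0 < κ) : ∃ N0 : ℕ, ∀ N ≥ N0, (cnt (Un A) N : ℝ) ≤ κ * N := by
  obtain ⟨V, hV⟩ := exists_nat_gt (10 / κ)
  have hV1 : 1 ≤ V := by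
    have : (0 : ℝ) < V := lt_trans (by positivity) hV
    exact_mod_cast this
  obtain ⟨N1, hN1⟩ := un_lin hα hA hd hV1
  obtain ⟨N2, hN2⟩ := exists_nat_gt (2 * N1 / κ)
  refine ⟨N2, fun N hN => ?_⟩
  have h1 := hN1 N
  have h2 : 5 * (N : ℝ) / V ≤ κ / 2 * N := by
    have hVr : (0 : ℝ) < V := by exact_mod_cast hV1
    rw [div_lt_iff₀ hκ] at hV
    rw [div_le_iff₀ hVr]
    have : (0 : ℝ) ≤ N := by positivity
    nlinarith
  have h3 : (N1 : ℝ) ≤ κ / 2 * N := by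
    have : (N2 : ℝ) ≤ N := by exact_mod_cast hN
    have h4 : 2 * N1 / κ < N := lt_of_lt_of_le hN2 this
    rw [div_lt_iff₀ hκ] at h4
    linarith
  linarith

end Pool.Agent.Q239.GPD
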