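import Mathlib
import Pool.Agent.Q239.GPD.Win

/-! # Gluing finite geometric-progression-free sets -/

set_option autoImplicit false

open Filter Topology

namespace Pool.Agent.Q239.GPD

open Pool.Agent.H413R3
open GP (cnt)

theorem glue {α : ℝ} (h : ¬ Extremal α) : ∃ A : Set ℕ, (∀ n ∈ A, 1 ≤ n) ∧ GF A ∧
    ∃ ε > 0, ∀ N0 : ℕ, ∃ N ≥ N0, 1 ≤ N ∧ (α + ε) * N ≤ (cnt A N : ℝ) := by
  unfold Extremal at h
  push Not at h
  obtain ⟨ε, hε, h⟩ := h
  choose g hg T hT1 hT2 hT3 using h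
  obtain ⟨M, hM⟩ := exists_nat_gt (2 / ε)
  have hM1 : 1 ≤ M := by
    have : (0 : ℝ) < M := lt_trans (by positivity) hM
    exact_mod_cast this
  -- the starting points
  let x : ℕ → ℕ := fun j => Nat.rec 1 (fun _ y => M ^ 2 * (g y) ^ 2 + g y + 1) j
  have hx0 : x 0 = 1 := rfl
  have hxs : ∀ j, x (j + 1) = M ^ 2 * (g (x j)) ^ 2 + g (x j) + 1 := fun j => rfl
  have hx1 : ∀ j, 1 ≤ x j := by
    intro j
    cases j with
    | zero => rw [hx0]
    | succ j => rw [hxs]; omega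
  let φ : ℕ → ℕ := fun j => g (x j)
  have hφx : ∀ j, x j ≤ φ j := fun j => hg (x j)
  have hφ1 : ∀ j, 1 ≤ φ j := fun j => (hx1 j).trans (hφx j)
  have hstep : ∀ j, M ^ 2 * φ j ^ 2 + φ j + 1 ≤ φ (j + 1) := by
    intro j
    have := hφx (j + 1)
    rw [hxs] at this
    exact this
  have hmono : StrictMono φ := strictMono_nat_of_lt_succ fun j => by
    have := hstep j
    omega
  have hgap : ∀ i j, i < j → M ^ 2 * φ i ^ 2 < φ j := by
    intro i j hij
    have h1 : φ (i + 1) ≤ φ j := hmono.monotone hij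
    have := hstep i
    omega
  let A : Set ℕ := {n | 1 ≤ n ∧ ∃ j, n ∈ T (x j) ∧ n ≤ φ j ∧ φ j < n * M}
  refine ⟨A, fun n hn => hn.1, ?_, ε / 2, by positivity, ?_⟩
  · -- `A` is free
    rintro a ⟨ha1, i, ha2, ha3, ha4⟩ b ⟨hb1, k, hb2, hb3, hb4⟩ c ⟨hc1, j, hc2, hc3, hc4⟩ hab hbc heq
    have hkj : k ≤ j := by
      by_contra hlt
      push Not at hlt
      have h1 := hgap j k hlt
      have h2 : M ^ 2 * c ^ 2 ≤ M ^ 2 * φ j ^ 2 := by gcongr
      have h3 : M ^ 2 * c ^ 2 < b * M := by omega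
      have h4 : b * M ≤ c * M := by gcongr
      have h5 : c * M ≤ M ^ 2 * c ^ 2 := by
        calc c * M = M * c * 1 := by ring
          _ ≤ M * c * (M * c) := Nat.mul_le_mul_left _ (Nat.mul_pos hM1 hc1)
          _ = M ^ 2 * c ^ 2 := by ring
      omega
    have hik : i ≤ k := by
      by_contra hlt
      push Not at hlt
      have h1 := hgap k i hlt
      have h2 : M ^ 2 * b ^ 2 ≤ M ^ 2 * φ k ^ 2 := by gcongr
      have h3 : M ^ 2 * b ^ 2 < a * M := by omega
      have h4 : a * M ≤ b * M := by gcongr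
      have h5 : b * M ≤ M ^ 2 * b ^ 2 := by
        calc b * M = M * b * 1 := by ring
          _ ≤ M * b * (M * b) := Nat.mul_le_mul_left _ (Nat.mul_pos hM1 hb1)
          _ = M ^ 2 * b ^ 2 := by ring
      omega
    rcases eq_or_lt_of_le hkj with hkj' | hkj'
    · subst hkj'
      rcases eq_or_lt_of_le hik with hik' | hik'
      · subst hik'
        exact hT2 (x i) a ha2 b hb2 c hc2 hab hbc heq
      · have h1 := hgap i k hik'
        -- `b ^ 2 = a * c ≤ φ i * φ k`
        have h2 : φ k * φ k < (M ^ 2 * φ i ^ 2) * φ k := by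
          calc φ k * φ k < (b * M) * (b * M) := Nat.mul_lt_mul'' hb4 hb4
            _ = M ^ 2 * (b ^ 2) := by ring
            _ = M ^ 2 * (a * c) := by rw [heq]
            _ ≤ M ^ 2 * (φ i * φ k) := by gcongr
            _ = (M ^ 2 * (φ i * 1)) * φ k := by ring
            _ ≤ (M ^ 2 * (φ i * φ i)) * φ k := by
                have := hφ1 i
                gcongr
            _ = (M ^ 2 * φ i ^ 2) * φ k := by ring
        have h3 := Nat.lt_of_mul_lt_mul_right h2
        omega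
    · have h1 := hgap k j hkj'
      have h2 : M ^ 2 * b ^ 2 ≤ M ^ 2 * φ k ^ 2 := by gcongr
      have h3 : M ^ 2 * b ^ 2 < c * M := by omega
      have h4 : c ≤ b ^ 2 := by
        rw [heq]; exact Nat.le_mul_of_pos_left c ha1
      have h5 : c * M ≤ M ^ 2 * b ^ 2 := by
        calc c * M ≤ b ^ 2 * M := by gcongr
          _ = M * 1 * b ^ 2 := by ring
          _ ≤ M * M * b ^ 2 := by gcongr
          _ = M ^ 2 * b ^ 2 := by ring
      omega
  · intro N0
    obtain ⟨j, hj⟩ : ∃ j, N0 ≤ φ j := ⟨N0, hmono.id_le N0⟩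
    refine ⟨φ j, hj, hφ1 j, ?_⟩
    have h1 := hT3 (x j)
    change (α + ε) * (φ j : ℝ) < (cnt (T (x j)) (φ j) : ℝ) at h1
    have h2 : cnt (T (x j)) (φ j) ≤ cnt A (φ j) + cnt {n | n * M ≤ φ j} (φ j) := by
      unfold cnt
      refine (Set.ncard_le_ncard ?_ (((Set.finite_Icc 1 (φ j)).inter_of_right _).union
        ((Set.finite_Icc 1 (φ j)).inter_of_right _))).trans (Set.ncard_union_le _ _)
      rintro n ⟨a1, a2, a3⟩
      by_cases hn : n * M ≤ φ j
      · right; exact ⟨hn, a2, a3⟩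
      · left
        push Not at hn
        exact ⟨⟨a2, j, a1, a3, hn⟩, a2, a3⟩
    have h3 : cnt {n | n * M ≤ φ j} (φ j) ≤ φ j / M := by
      unfold cnt
      have : ({n | n * M ≤ φ j} ∩ Set.Icc 1 (φ j) : Set ℕ) ⊆ ((Finset.Icc 1 (φ j / M) : Finset ℕ) : Set ℕ) := by
        rintro n ⟨a1, a2, a3⟩
        rw [Finset.coe_Icc]
        exact ⟨a2, (Nat.le_div_iff_mul_le (by omega)).2 a1⟩
      refine (Set.ncard_le_ncard this (Finset.finite_toSet _)).trans ?_
      rw [Set.ncard_coe_finset, Nat.card_Icc, Nat.add_sub_cancel]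
    have h4 : ((φ j / M : ℕ) : ℝ) ≤ ε / 2 * φ j := by
      have h5 : ((φ j / M : ℕ) : ℝ) ≤ (φ j : ℝ) / M := Nat.cast_div_le
      refine h5.trans ?_
      have hMr : (0 : ℝ) < M := by exact_mod_cast hM1
      rw [div_lt_iff₀ hε] at hM
      rw [div_le_iff₀ hMr]
      have : (0 : ℝ) ≤ φ j := by positivity
      nlinarith
    have h6 : (cnt (T (x j)) (φ j) : ℝ) ≤ cnt A (φ j) + ((φ j / M : ℕ) : ℝ) := by
      exact_mod_cast h2.trans (Nat.add_le_add_left h3 _)
    linarith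

end Pool.Agent.Q239.GPD
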