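import Mathlib
import Pool.Agent.Q239.GPD.Turan
import Pool.Agent.Erdos456.Mertens
import Pool.Agent.H413R3.KGOpt

/-! # Almost all integers have a factorisation `n = s m`, `s` bounded, `m` squarefree with all
prime factors above `√s` -/

set_option autoImplicit false

open Filter Topology

namespace Pool.Agent.Q239.GPD

open Pool.Agent.H413R3
open GP (cnt Bad)
open KG (sm rg)

/-- `n = s m` with `s ≤ S`, `m` squarefree, prime to `s`, and the prime factors of `m` above `√s` -/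
def Good (S n : ℕ) : Prop := ∃ s m : ℕ, s * m = n ∧ s ≤ S ∧ Squarefree m ∧ Nat.Coprime s m ∧
  ∀ q, q.Prime → q ∣ m → s < q ^ 2

lemma good_of {n K K0 S : ℕ} (hn : n ≠ 0) (hK : K0 ≤ K)
    (h1 : ∀ q, K0 ≤ q → n.factorization q ≤ 1) (h2 : sm K n < K ^ 2) (hS : K ^ 2 ≤ S) : Good S n := by
  have hrg := KG.rg_pos K hn
  refine ⟨sm K n, rg K n, KG.sm_mul_rg K hn, by omega, ?_, ?_, ?_⟩
  · rw [Nat.squarefree_iff_factorization_le_one hrg.ne']
    intro q
    rw [KG.fac_rg K q hn]
    split_ifs with h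
    · norm_num
    · exact h1 q (by omega)
  · rw [Nat.coprime_iff_gcd_eq_one]
    by_contra hne
    obtain ⟨q, hq, hqd⟩ := Nat.exists_prime_and_dvd hne
    have hq1 : q ∣ sm K n := hqd.trans (Nat.gcd_dvd_left _ _)
    have hq2 : q ∣ rg K n := hqd.trans (Nat.gcd_dvd_right _ _)
    have h3 := (hq.dvd_iff_one_le_factorization (KG.sm_pos K n).ne').1 hq1
    have h4 := (hq.dvd_iff_one_le_factorization hrg.ne').1 hq2
    rw [KG.fac_sm] at h3
    rw [KG.fac_rg K q hn] at h4
    split_ifs at h3 h4 <;> omega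
  · intro q hq hqd
    have h4 := (hq.dvd_iff_one_le_factorization hrg.ne').1 hqd
    rw [KG.fac_rg K q hn] at h4
    have h5 : K ≤ q := by
      by_contra hlt
      rw [if_pos (by omega)] at h4
      omega
    exact lt_of_lt_of_le h2 (Nat.pow_le_pow_left h5 2)

/-- geometric sum over a finite set -/
lemma geo {F : Finset ℕ} {x : ℝ} (hx : 0 < x) (h : ∀ j ∈ F, x ≤ 2 ^ j) :
    ∑ j ∈ F, (1 / 2 : ℝ) ^ j ≤ 2 / x := by
  rcases F.eq_empty_or_nonempty with rfl | hne
  · simp; positivity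
  · set a := F.min' hne with ha
    have hsub : F ⊆ Finset.Ico a (a + (F.max' hne + 1)) := by
      intro j hj
      rw [Finset.mem_Ico]
      have h1 := Finset.min'_le F j hj
      have h2 := Finset.le_max' F j hj
      omega
    have hgeo : ∀ n : ℕ, ∑ j ∈ Finset.Ico a (a + n), (1 / 2 : ℝ) ^ j = 2 * (1 / 2) ^ a - 2 * (1 / 2) ^ (a + n) := by
      intro n
      induction n with
      | zero => simp
      | succ n ih =>
        rw [← add_assoc, Finset.sum_Ico_succ_top (by omega), ih, pow_succ]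
        ring
    have h1 : ∑ j ∈ F, (1 / 2 : ℝ) ^ j ≤ 2 * (1 / 2) ^ a := by
      refine (Finset.sum_le_sum_of_subset_of_nonneg hsub fun _ _ _ => by positivity).trans ?_
      rw [hgeo]
      have : (0 : ℝ) ≤ 2 * (1 / 2) ^ (a + (F.max' hne + 1)) := by positivity
      linarith
    have h2 := h a (Finset.min'_mem F hne)
    refine h1.trans ?_
    rw [le_div_iff₀ hx]
    calc 2 * (1 / 2 : ℝ) ^ a * x ≤ 2 * (1 / 2 : ℝ) ^ a * 2 ^ a := by gcongr
      _ = 2 := by rw [mul_assoc, ← mul_pow]; norm_num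

/-- the scales -/
def z (j : ℕ) : ℕ := 2 ^ 2 ^ j

lemma z_pos (j : ℕ) : 0 < z j := by unfold z; positivity

lemma log_z (j : ℕ) : Real.log (z j : ℝ) = 2 ^ j * Real.log 2 := by
  unfold z
  push_cast
  rw [Real.log_pow]
  push_cast
  ring

lemma z_mono : StrictMono z := by
  intro a b h
  unfold z
  exact Nat.pow_lt_pow_right (by norm_num) (Nat.pow_lt_pow_right (by norm_num) h)

/-- primes in `[z j0, z J)` -/
def Pr (j0 J : ℕ) : Finset ℕ := (Finset.range (z J)).filter (fun p => p.Prime ∧ z j0 ≤ p)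

/-- weights -/
noncomputable def g (j0 J : ℕ) (p : ℕ) : ℝ :=
  Real.log p * ∑ j ∈ (Finset.Icc j0 J).filter (fun j => p < z j), (1 / 2 : ℝ) ^ j

lemma g_nonneg (j0 J p : ℕ) : 0 ≤ g j0 J p :=
  mul_nonneg (Real.log_natCast_nonneg p) (Finset.sum_nonneg fun _ _ => by positivity)

lemma g_le (j0 J p : ℕ) (hp : p.Prime) : g j0 J p ≤ 2 := by
  have hp1 : (1 : ℝ) < p := by exact_mod_cast hp.one_lt
  have hlog : 0 < Real.log p := Real.log_pos hp1
  have hlog2 : 0 < Real.log 2 := Real.log_pos (by norm_num)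
  have h1 : ∑ j ∈ (Finset.Icc j0 J).filter (fun j => p < z j), (1 / 2 : ℝ) ^ j ≤
      2 / (Real.log p / Real.log 2) := by
    apply geo (by positivity)
    intro j hj
    rw [Finset.mem_filter] at hj
    rw [div_le_iff₀ hlog2, ← log_z]
    exact Real.log_le_log (by linarith) (by exact_mod_cast hj.2.le)
  unfold g
  calc Real.log p * ∑ j ∈ (Finset.Icc j0 J).filter (fun j => p < z j), (1 / 2 : ℝ) ^ j
      ≤ Real.log p * (2 / (Real.log p / Real.log 2)) := mul_le_mul_of_nonneg_left h1 hlog.le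
    _ = 2 * Real.log 2 := by field_simp
    _ ≤ 2 := by have := Real.log_two_lt_d9; linarith

lemma half_sum (j0 J : ℕ) : ∑ j ∈ Finset.Icc j0 J, (1 / 2 : ℝ) ^ j ≤ 2 := by
  have := geo (F := Finset.Icc j0 J) (x := 1) one_pos fun j _ => one_le_pow₀ (by norm_num)
  simpa using this

lemma mu_le : ∃ C : ℝ, 0 ≤ C ∧ ∀ j0 J : ℕ, j0 ≤ J →
    mu (Pr j0 J) (g j0 J) ≤ ((J : ℝ) + 1 - j0) * Real.log 2 + C := by
  obtain ⟨C, hC⟩ := Erdos456.Mert.mertens_log
  refine ⟨2 * |C|, by positivity, fun j0 J hJ => ?_⟩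
  have e : mu (Pr j0 J) (g j0 J) = ∑ j ∈ Finset.Icc j0 J, (1 / 2 : ℝ) ^ j *
      ∑ p ∈ (Pr j0 J).filter (fun p => p < z j), Real.log p / p := by
    unfold mu g
    have e1 : ∀ p : ℕ, Real.log (p : ℝ) * (∑ j ∈ (Finset.Icc j0 J).filter (fun j => p < z j), (1 / 2 : ℝ) ^ j) / p =
        ∑ j ∈ Finset.Icc j0 J, if p < z j then (1 / 2 : ℝ) ^ j * (Real.log p / p) else 0 := by
      intro p
      rw [Finset.sum_filter, Finset.mul_sum, Finset.sum_div]
      refine Finset.sum_congr rfl fun j _ => ?_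
      split_ifs <;> ring
    simp_rw [e1]
    rw [Finset.sum_comm]
    refine Finset.sum_congr rfl fun j _ => ?_
    rw [Finset.mul_sum, Finset.sum_filter]
  rw [e]
  have h1 : ∀ j ∈ Finset.Icc j0 J, (1 / 2 : ℝ) ^ j *
      ∑ p ∈ (Pr j0 J).filter (fun p => p < z j), Real.log p / p ≤ Real.log 2 + (1 / 2 : ℝ) ^ j * |C| := by
    intro j _
    have h2 : ∑ p ∈ (Pr j0 J).filter (fun p => p < z j), Real.log (p : ℝ) / p ≤
        ∑ p ∈ (Finset.Icc 1 (z j)).filter Nat.Prime, Real.log (p : ℝ) / p := by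
      apply Finset.sum_le_sum_of_subset_of_nonneg
      · intro p hp
        simp only [Pr, Finset.mem_filter, Finset.mem_range] at hp
        rw [Finset.mem_filter, Finset.mem_Icc]
        exact ⟨⟨hp.1.2.1.one_lt.le, hp.2.le⟩, hp.1.2.1⟩
      · intro p _ _
        exact div_nonneg (Real.log_natCast_nonneg p) (Nat.cast_nonneg p)
    have h3 := (abs_le.1 (hC (z j) (z_pos j))).2
    have h4 : ∑ p ∈ (Pr j0 J).filter (fun p => p < z j), Real.log (p : ℝ) / p ≤ 2 ^ j * Real.log 2 + |C| := by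
      rw [log_z] at h3
      have := le_abs_self C
      linarith
    calc (1 / 2 : ℝ) ^ j * ∑ p ∈ (Pr j0 J).filter (fun p => p < z j), Real.log (p : ℝ) / p
        ≤ (1 / 2 : ℝ) ^ j * (2 ^ j * Real.log 2 + |C|) := by gcongr
      _ = ((1 / 2 : ℝ) ^ j * 2 ^ j) * Real.log 2 + (1 / 2 : ℝ) ^ j * |C| := by ring
      _ = Real.log 2 + (1 / 2 : ℝ) ^ j * |C| := by rw [← mul_pow]; norm_num
  refine (Finset.sum_le_sum h1).trans ?_
  rw [Finset.sum_add_distrib, Finset.sum_const, Nat.card_Icc, nsmul_eq_mul, ← Finset.sum_mul]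
  have h5 := mul_le_mul_of_nonneg_right (half_sum j0 J) (abs_nonneg C)
  rw [Nat.cast_sub (by omega)]
  push_cast
  linarith

/-- if `n` has no good factorisation then it has many prime factors -/
lemma Y_large {j0 J n : ℕ} (hJ : j0 ≤ J) (hn : n ≠ 0) {B : ℝ} (hB : Real.log (sm (z j0) n) ≤ B)
    (hB0 : 0 ≤ B)
    (h1 : ∀ q, z j0 ≤ q → n.factorization q ≤ 1) (hg : ¬ Good (z J ^ 2) n) :
    2 * ((J : ℝ) + 1 - j0) * Real.log 2 - 2 * B ≤ Y (Pr j0 J) (g j0 J) n := by
  -- the logarithm of the smooth part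
  have hlogsm : ∀ K, Real.log (sm K n : ℝ) =
      ∑ p ∈ Nat.primesBelow K, (n.factorization p : ℝ) * Real.log p := by
    intro K
    unfold KG.sm
    push_cast
    rw [Real.log_prod (fun p hp => by
      have := (Nat.prime_of_mem_primesBelow hp).pos
      positivity)]
    exact Finset.sum_congr rfl fun p _ => Real.log_pow _ _
  have h2 : ∀ j ∈ Finset.Icc j0 J, Real.log (sm (z j) n : ℝ) ≤
      B + ∑ p ∈ (Pr j0 J).filter (fun p => p < z j), if p ∣ n then Real.log (p : ℝ) else 0 := by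
    intro j hj
    rw [Finset.mem_Icc] at hj
    have hsplit : Nat.primesBelow (z j) ⊆ Nat.primesBelow (z j0) ∪ (Pr j0 J).filter (fun p => p < z j) := by
      intro p hp
      rw [Nat.mem_primesBelow] at hp
      rw [Finset.mem_union]
      by_cases h : p < z j0
      · left; exact Nat.mem_primesBelow.2 ⟨h, hp.2⟩
      · right
        simp only [Pr, Finset.mem_filter, Finset.mem_range]
        exact ⟨⟨lt_of_lt_of_le hp.1 (z_mono.monotone hj.2), hp.2, by omega⟩, hp.1⟩
    rw [hlogsm]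
    have hnn : ∀ p : ℕ, 0 ≤ (n.factorization p : ℝ) * Real.log p := fun p =>
      mul_nonneg (Nat.cast_nonneg _) (Real.log_natCast_nonneg p)
    refine (Finset.sum_le_sum_of_subset_of_nonneg hsplit fun p _ _ => hnn p).trans ?_
    have hun : ∑ p ∈ Nat.primesBelow (z j0) ∪ (Pr j0 J).filter (fun p => p < z j),
        (n.factorization p : ℝ) * Real.log p ≤
        ∑ p ∈ Nat.primesBelow (z j0), (n.factorization p : ℝ) * Real.log p +
        ∑ p ∈ (Pr j0 J).filter (fun p => p < z j), (n.factorization p : ℝ) * Real.log p := by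
      rw [← Finset.sum_union_inter]
      have : 0 ≤ ∑ p ∈ Nat.primesBelow (z j0) ∩ (Pr j0 J).filter (fun p => p < z j),
        (n.factorization p : ℝ) * Real.log p := Finset.sum_nonneg fun p _ => hnn p
      linarith
    refine hun.trans ?_
    rw [← hlogsm]
    refine add_le_add hB (Finset.sum_le_sum fun p hp => ?_)
    simp only [Pr, Finset.mem_filter, Finset.mem_range] at hp
    have h3 := h1 p hp.1.2.2
    by_cases hd : p ∣ n
    · rw [if_pos hd]
      have : (n.factorization p : ℝ) ≤ 1 := by exact_mod_cast h3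
      have h4 := Real.log_natCast_nonneg p
      nlinarith
    · rw [if_neg hd, Nat.factorization_eq_zero_of_not_dvd hd]
      simp
  have h3 : ∀ j ∈ Finset.Icc j0 J, 2 * (2 ^ j * Real.log 2) ≤ Real.log (sm (z j) n : ℝ) := by
    intro j hj
    rw [Finset.mem_Icc] at hj
    have h4 : z j ^ 2 ≤ sm (z j) n := by
      by_contra hlt
      push Not at hlt
      exact hg (good_of hn (z_mono.monotone hj.1) h1 hlt
        (Nat.pow_le_pow_left (z_mono.monotone hj.2) 2))
    rw [← log_z]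
    have h5 : Real.log ((z j : ℝ) ^ 2) ≤ Real.log (sm (z j) n : ℝ) := by
      apply Real.log_le_log
      · have : (0 : ℝ) < z j := by exact_mod_cast z_pos j
        positivity
      · exact_mod_cast h4
    rw [Real.log_pow] at h5
    exact_mod_cast h5
  -- sum with weights
  have h4 : ∑ j ∈ Finset.Icc j0 J, (1 / 2 : ℝ) ^ j * (2 * (2 ^ j * Real.log 2)) ≤
      ∑ j ∈ Finset.Icc j0 J, (1 / 2 : ℝ) ^ j *
        (B + ∑ p ∈ (Pr j0 J).filter (fun p => p < z j), if p ∣ n then Real.log (p : ℝ) else 0) := by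
    refine Finset.sum_le_sum fun j hj => ?_
    exact mul_le_mul_of_nonneg_left ((h3 j hj).trans (h2 j hj)) (by positivity)
  have e1 : ∑ j ∈ Finset.Icc j0 J, (1 / 2 : ℝ) ^ j * (2 * (2 ^ j * Real.log 2)) =
      2 * ((J : ℝ) + 1 - j0) * Real.log 2 := by
    have : ∀ j ∈ Finset.Icc j0 J, (1 / 2 : ℝ) ^ j * (2 * (2 ^ j * Real.log 2)) = 2 * Real.log 2 := by
      intro j _
      calc (1 / 2 : ℝ) ^ j * (2 * (2 ^ j * Real.log 2)) = ((1 / 2 : ℝ) ^ j * 2 ^ j) * (2 * Real.log 2) := by ring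
        _ = 2 * Real.log 2 := by rw [← mul_pow]; norm_num
    rw [Finset.sum_congr rfl this, Finset.sum_const, Nat.card_Icc, nsmul_eq_mul, Nat.cast_sub (by omega)]
    push_cast
    ring
  have e2 : ∑ j ∈ Finset.Icc j0 J, (1 / 2 : ℝ) ^ j *
        (B + ∑ p ∈ (Pr j0 J).filter (fun p => p < z j), if p ∣ n then Real.log (p : ℝ) else 0) =
      (∑ j ∈ Finset.Icc j0 J, (1 / 2 : ℝ) ^ j) * B + Y (Pr j0 J) (g j0 J) n := by
    simp_rw [mul_add]
    rw [Finset.sum_add_distrib, ← Finset.sum_mul]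
    congr 1
    unfold Y g
    have e3 : ∀ p, (if p ∣ n then Real.log (p : ℝ) *
        (∑ j ∈ (Finset.Icc j0 J).filter (fun j => p < z j), (1 / 2 : ℝ) ^ j) else 0) =
        ∑ j ∈ Finset.Icc j0 J, if p < z j then (1 / 2 : ℝ) ^ j * (if p ∣ n then Real.log (p : ℝ) else 0) else 0 := by
      intro p
      by_cases hd : p ∣ n
      · rw [if_pos hd, Finset.sum_filter, Finset.mul_sum]
        refine Finset.sum_congr rfl fun j _ => ?_
        split_ifs <;> ring
      · rw [if_neg hd]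
        symm
        apply Finset.sum_eq_zero
        intro j _
        rw [if_neg hd]; simp
    simp_rw [e3]
    rw [Finset.sum_comm]
    refine Finset.sum_congr rfl fun j _ => ?_
    rw [Finset.mul_sum, Finset.sum_filter]
  rw [e1, e2] at h4
  have h5 := mul_le_mul_of_nonneg_right (half_sum j0 J) hB0
  linarith

end Pool.Agent.Q239.GPD
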