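import Mathlib
import Pool.Agent.Q239.GPD.Good

/-! # Almost all integers have a good factorisation: the density statement -/

set_option autoImplicit false

open Filter Topology

namespace Pool.Agent.Q239.GPD

open Pool.Agent.H413R3
open GP (cnt Bad)
open KG (sm rg)

/-- some small prime occurs to a high power -/
def Hp (K X : ℕ) : Set ℕ := {n | 1 ≤ n ∧ ∃ p < K, p.Prime ∧ X ≤ p ^ n.factorization p}

lemma cnt_Hp {K X : ℕ} (hX : 1 ≤ X) (N : ℕ) : (cnt (Hp K X) N : ℝ) ≤ K * (N / X) := by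
  classical
  have hsub : Hp K X ∩ Set.Icc 1 N ⊆
      ((((Finset.range K).filter Nat.Prime).biUnion
        (fun p => (Finset.Icc 1 N).filter (fun n => p ^ Nat.clog p X ∣ n)) : Finset ℕ) : Set ℕ) := by
    rintro n ⟨⟨h1, p, hp, hpp, hX⟩, h2, h3⟩
    simp only [Finset.coe_biUnion, Set.mem_iUnion, Finset.mem_coe, Finset.mem_filter, Finset.mem_range,
      Finset.mem_Icc]
    refine ⟨p, ⟨hp, hpp⟩, ⟨h2, h3⟩, ?_⟩
    rw [hpp.pow_dvd_iff_le_factorization (by omega)]
    exact Nat.clog_le_of_le_pow hX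
  have h1 : cnt (Hp K X) N ≤ ∑ p ∈ (Finset.range K).filter Nat.Prime,
      ((Finset.Icc 1 N).filter (fun n => p ^ Nat.clog p X ∣ n)).card := by
    unfold cnt
    refine (Set.ncard_le_ncard hsub (Finset.finite_toSet _)).trans ?_
    rw [Set.ncard_coe_finset]
    exact Finset.card_biUnion_le
  have h2 : (cnt (Hp K X) N : ℝ) ≤ ∑ p ∈ (Finset.range K).filter Nat.Prime, (N : ℝ) / X := by
    have h3 : (cnt (Hp K X) N : ℝ) ≤ ∑ p ∈ (Finset.range K).filter Nat.Prime,
        (((Finset.Icc 1 N).filter (fun n => p ^ Nat.clog p X ∣ n)).card : ℝ) := by exact_mod_cast h1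
    refine h3.trans (Finset.sum_le_sum fun p hp => ?_)
    rw [Finset.mem_filter] at hp
    rw [card_dvd]
    have h4 : ((N / p ^ Nat.clog p X : ℕ) : ℝ) ≤ N / ((p ^ Nat.clog p X : ℕ) : ℝ) := Nat.cast_div_le
    refine h4.trans ?_
    have h5 : X ≤ p ^ Nat.clog p X := Nat.le_pow_clog hp.2.one_lt X
    have h6 : (X : ℝ) ≤ ((p ^ Nat.clog p X : ℕ) : ℝ) := by exact_mod_cast h5
    have h7 : (0 : ℝ) < X := by exact_mod_cast hX
    exact div_le_div_of_nonneg_left (Nat.cast_nonneg N) h7 h6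
  refine h2.trans ?_
  rw [Finset.sum_const, nsmul_eq_mul]
  have h3 : ((Finset.range K).filter Nat.Prime).card ≤ K := by
    have := Finset.card_filter_le (Finset.range K) Nat.Prime
    rwa [Finset.card_range] at this
  have h4 : (((Finset.range K).filter Nat.Prime).card : ℝ) ≤ K := by exact_mod_cast h3
  exact mul_le_mul_of_nonneg_right h4 (by positivity)

lemma log_sm_le {K X n : ℕ} (hn : 1 ≤ n) (h : n ∉ Hp K X) :
    Real.log (sm K n : ℝ) ≤ K * Real.log X := by
  have hlogX : 0 ≤ Real.log X := Real.log_natCast_nonneg X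
  unfold KG.sm
  push_cast
  rw [Real.log_prod (fun p hp => by
    have := (Nat.prime_of_mem_primesBelow hp).pos
    positivity)]
  have h1 : ∀ p ∈ Nat.primesBelow K, Real.log ((p : ℝ) ^ n.factorization p) ≤ Real.log X := by
    intro p hp
    have hpp := Nat.prime_of_mem_primesBelow hp
    have hpK := Nat.lt_of_mem_primesBelow hp
    have h2 : p ^ n.factorization p < X := by
      by_contra hlt
      push Not at hlt
      exact h ⟨hn, p, hpK, hpp, hlt⟩
    have h3 : (0 : ℝ) < p := by exact_mod_cast hpp.pos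
    apply Real.log_le_log (by positivity)
    exact_mod_cast h2.le
  refine (Finset.sum_le_sum h1).trans ?_
  rw [Finset.sum_const, nsmul_eq_mul]
  have h3 : (Nat.primesBelow K).card ≤ K := by
    have : Nat.primesBelow K ⊆ Finset.range K := fun p hp => Finset.mem_range.2 (Nat.lt_of_mem_primesBelow hp)
    have := Finset.card_le_card this
    rwa [Finset.card_range] at this
  have h4 : ((Nat.primesBelow K).card : ℝ) ≤ K := by exact_mod_cast h3
  exact mul_le_mul_of_nonneg_right h4 hlogX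

theorem good_dens {ε : ℝ} (hε : 0 < ε) : ∃ S N0 : ℕ, ∀ N ≥ N0,
    (cnt {n | 1 ≤ n ∧ ¬ Good S n} N : ℝ) ≤ ε * N := by
  classical
  obtain ⟨j0, hj0⟩ := exists_nat_gt (3 / ε)
  have hz : j0 + 1 < z j0 := by
    have h1 : j0 < 2 ^ j0 := Nat.lt_two_pow_self
    have h2 : 2 ^ j0 < 2 ^ 2 ^ j0 := Nat.lt_two_pow_self
    unfold z
    omega
  obtain ⟨X, hX⟩ := exists_nat_gt (3 * (z j0 : ℝ) / ε)
  have hX1 : 1 ≤ X := by
    have : (0 : ℝ) < X := lt_of_le_of_lt (by positivity) hX
    exact_mod_cast this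
  set B : ℝ := (z j0 : ℝ) * Real.log X with hB
  have hB0 : 0 ≤ B := mul_nonneg (Nat.cast_nonneg _) (Real.log_natCast_nonneg X)
  obtain ⟨C, hC0, hC⟩ := mu_le
  obtain ⟨L, hL⟩ := exists_nat_gt (max (10 * (2 * B + C)) (100 / ε))
  have hL1 : 10 * (2 * B + C) < L := lt_of_le_of_lt (le_max_left _ _) hL
  have hL2 : 100 / ε < L := lt_of_le_of_lt (le_max_right _ _) hL
  have hLpos : (0 : ℝ) < L := lt_trans (by positivity) hL2
  have hLn : 1 ≤ L := by exact_mod_cast hLpos
  set J := j0 + L - 1 with hJ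
  have hJ0 : j0 ≤ J := by omega
  have hJL : (J : ℝ) + 1 - j0 = L := by
    have : J + 1 = j0 + L := by omega
    have : (J : ℝ) + 1 = j0 + L := by exact_mod_cast this
    linarith
  have hlog2a := Real.log_two_gt_d9
  have hlog2b := Real.log_two_lt_d9
  have hmu := hC j0 J hJ0
  rw [hJL] at hmu
  set P := Pr j0 J with hPdef
  set μ := mu P (g j0 J) with hμ
  have hPp : ∀ p ∈ P, p.Prime := fun p hp => by
    simp only [hPdef, Pr, Finset.mem_filter] at hp
    exact hp.2.1
  have hμ0 : 0 ≤ μ := mu_nonneg fun p _ => g_nonneg j0 J p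
  set t : ℝ := (L : ℝ) * Real.log 2 - 2 * B - C with ht
  have htL : (L : ℝ) / 2 ≤ t := by
    have : (L : ℝ) * 0.6 ≤ L * Real.log 2 := by
      apply mul_le_mul_of_nonneg_left _ hLpos.le
      linarith
    linarith
  have htpos : 0 < t := by linarith
  have hμL : μ ≤ 2 * L := by
    have : (L : ℝ) * Real.log 2 ≤ L * 1 := by
      apply mul_le_mul_of_nonneg_left _ hLpos.le
      linarith
    linarith
  refine ⟨z J ^ 2, 2 * P.card, fun N hN => ?_⟩
  have hNr : (2 * P.card : ℝ) ≤ N := by exact_mod_cast hN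
  have hN0 : (0 : ℝ) ≤ N := Nat.cast_nonneg N
  -- the covering
  have hcov : cnt {n | 1 ≤ n ∧ ¬ Good (z J ^ 2) n} N ≤ cnt (Bad (z j0 - 1)) N + cnt (Hp (z j0) X) N +
      ((Finset.Icc 1 N).filter (fun n => μ + t ≤ Y P (g j0 J) n)).card := by
    unfold cnt
    have hsub : ({n | 1 ≤ n ∧ ¬ Good (z J ^ 2) n} ∩ Set.Icc 1 N : Set ℕ) ⊆
        ((Bad (z j0 - 1) ∩ Set.Icc 1 N) ∪ (Hp (z j0) X ∩ Set.Icc 1 N)) ∪
        (((Finset.Icc 1 N).filter (fun n => μ + t ≤ Y P (g j0 J) n) : Finset ℕ) : Set ℕ) := by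
      rintro n ⟨⟨h1, h2⟩, h3, h4⟩
      by_cases hb : n ∈ Bad (z j0 - 1)
      · left; left; exact ⟨hb, h3, h4⟩
      by_cases hh : n ∈ Hp (z j0) X
      · left; right; exact ⟨hh, h3, h4⟩
      right
      rw [Finset.coe_filter]
      refine ⟨Finset.mem_Icc.2 ⟨h3, h4⟩, ?_⟩
      have h5 := log_sm_le h1 hh
      have h6 : ∀ q, z j0 ≤ q → n.factorization q ≤ 1 := by
        intro q hq
        by_contra hlt
        push Not at hlt
        have hqp : q.Prime := by
          by_contra hnp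
          rw [Nat.factorization_eq_zero_of_not_prime _ hnp] at hlt
          omega
        exact hb ⟨q, by omega, (hqp.pow_dvd_iff_le_factorization (by omega)).2 hlt⟩
      have h7 := Y_large hJ0 (by omega) h5 hB0 h6 h2
      rw [hJL] at h7
      change μ + t ≤ Y P (g j0 J) n
      linarith
    refine (Set.ncard_le_ncard hsub ((((Set.finite_Icc 1 N).inter_of_right _).union
      ((Set.finite_Icc 1 N).inter_of_right _)).union (Finset.finite_toSet _))).trans ?_
    refine (Set.ncard_union_le _ _).trans ?_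
    rw [Set.ncard_coe_finset]
    exact Nat.add_le_add_right (Set.ncard_union_le _ _) _
  have hcov' : (cnt {n | 1 ≤ n ∧ ¬ Good (z J ^ 2) n} N : ℝ) ≤ cnt (Bad (z j0 - 1)) N +
      cnt (Hp (z j0) X) N + ((Finset.Icc 1 N).filter (fun n => μ + t ≤ Y P (g j0 J) n)).card := by
    exact_mod_cast hcov
  have b1 : (cnt (Bad (z j0 - 1)) N : ℝ) ≤ ε / 3 * N := by
    refine (GP.cnt_bad (by omega) N).trans ?_
    have h1 : (j0 : ℝ) ≤ ((z j0 - 1 : ℕ) : ℝ) := by exact_mod_cast (by omega : j0 ≤ z j0 - 1)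
    have h2 : 3 / ε < ((z j0 - 1 : ℕ) : ℝ) := lt_of_lt_of_le hj0 h1
    have h3 : (0 : ℝ) < ((z j0 - 1 : ℕ) : ℝ) := lt_trans (by positivity) h2
    rw [div_lt_iff₀ hε] at h2
    rw [div_le_iff₀ h3]
    nlinarith
  have b2 : (cnt (Hp (z j0) X) N : ℝ) ≤ ε / 3 * N := by
    refine (cnt_Hp hX1 N).trans ?_
    have h3 : (0 : ℝ) < X := by exact_mod_cast hX1
    rw [div_lt_iff₀ hε] at hX
    have : (z j0 : ℝ) * (N / X) = (z j0 * N) / X := by ring
    rw [this, div_le_iff₀ h3]
    nlinarith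
  have b3 : (((Finset.Icc 1 N).filter (fun n => μ + t ≤ Y P (g j0 J) n)).card : ℝ) ≤ ε / 3 * N := by
    have h1 := cheb (c := 2) hPp (fun p _ => g_nonneg j0 J p) (fun p hp => g_le j0 J p (hPp p hp)) N htpos
    set c := (((Finset.Icc 1 N).filter (fun n => mu P (g j0 J) + t ≤ Y P (g j0 J) n)).card : ℝ) with hc
    have hc0 : 0 ≤ c := Nat.cast_nonneg _
    have h2 : c * ((L : ℝ) / 2) ^ 2 ≤ 8 * L * N := by
      have h3 : c * ((L : ℝ) / 2) ^ 2 ≤ c * t ^ 2 := by gcongr
      have h4 : 2 * mu P (g j0 J) * N + 2 * mu P (g j0 J) * (2 * P.card) ≤ 8 * L * N := by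
        have h5 : 2 * μ * (2 * (P.card : ℝ)) ≤ 2 * μ * N := mul_le_mul_of_nonneg_left hNr (by positivity)
        have h6 : μ * (N : ℝ) ≤ 2 * L * N := mul_le_mul_of_nonneg_right hμL hN0
        have : 2 * mu P (g j0 J) * N + 2 * mu P (g j0 J) * (2 * P.card) =
          2 * μ * N + 2 * μ * (2 * (P.card : ℝ)) := rfl
        rw [this]
        linarith
      linarith
    have h3 : c * L ≤ 32 * N := by
      have h4 : c * L * (L / 4) ≤ 32 * N * (L / 4) := by
        calc c * L * (L / 4) = c * ((L : ℝ) / 2) ^ 2 := by ring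
          _ ≤ 8 * L * N := h2
          _ = 32 * N * (L / 4) := by ring
      exact le_of_mul_le_mul_right h4 (by positivity)
    rw [div_lt_iff₀ hε] at hL2
    have h4 : c * 100 ≤ 32 * N * ε := by
      calc c * 100 ≤ c * (L * ε) := mul_le_mul_of_nonneg_left hL2.le hc0
        _ = c * L * ε := by ring
        _ ≤ 32 * N * ε := mul_le_mul_of_nonneg_right h3 hε.le
    have h5 : c ≤ ε / 3 * N := by nlinarith
    exact h5
  linarith

end Pool.Agent.Q239.GPD
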