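import Mathlib
import Pool.Agent.Q239.GPD.Glue
import Pool.Agent.Q239.GPD.GoodDens

/-! # The supremum of the densities is not the supremum of the upper densities -/

set_option autoImplicit false

open Filter Topology

namespace Pool.Agent.Q239.GPD

open Pool.Agent.H413R3
open GP (cnt Greedy)
open KG (Dens)

lemma di_zero {α : ℝ} (hα : Extremal α) {A : Set ℕ} (hA : GF A) (hAp : ∀ n ∈ A, 1 ≤ n)
    (hd : Dens A α) {ε : ℝ} (hε : 0 < ε) :
    ∃ N0 : ℕ, ∀ N ≥ N0, (cnt (Di A Greedy) N : ℝ) ≤ ε * N := by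
  classical
  obtain ⟨S, N1, h1⟩ := good_dens (ε := ε / 2) (by positivity)
  set κ : ℝ := ε / (2 * ((S : ℝ) + 1) ^ 2) with hκ
  have hκpos : 0 < κ := by positivity
  obtain ⟨N2, h2⟩ := un_zero hα hA hd hκpos
  refine ⟨max N1 N2, fun N hN => ?_⟩
  have c1 := h1 N ((le_max_left _ _).trans hN)
  have c2 := h2 N ((le_max_right _ _).trans hN)
  set U : Finset ℕ := (Finset.Icc 1 N).filter (fun n => n ∈ Un A) with hU
  have hUc : cnt (Un A) N = U.card := by
    unfold cnt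
    have : Un A ∩ Set.Icc 1 N = (U : Set ℕ) := by
      ext n
      simp only [hU, Set.mem_inter_iff, Set.mem_Icc, Finset.coe_filter, Finset.mem_Icc, Set.mem_ofPred_eq]
      tauto
    rw [this, Set.ncard_coe_finset]
  have hcov : cnt (Di A Greedy) N ≤ cnt {n | 1 ≤ n ∧ ¬ Good S n} N + S * S * U.card := by
    have hsub : Di A Greedy ∩ Set.Icc 1 N ⊆ ({n | 1 ≤ n ∧ ¬ Good S n} ∩ Set.Icc 1 N) ∪
        (((Finset.Icc 1 S ×ˢ Finset.Icc 1 S).biUnion
          (fun p => U.image (fun x => p.1 * (x / p.2))) : Finset ℕ) : Set ℕ) := by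
      rintro n ⟨hD, hn1, hn2⟩
      by_cases hg : Good S n
      · right
        obtain ⟨s, m, rfl, hs, hm, hc, hq⟩ := hg
        obtain ⟨s', a1, a2, a3⟩ := descent hA hAp greedy_free (fun n hn => hn.1)
          (fun n hn hnG => greedy_blocks hn hnG) hm s hc hq hD
        simp only [Finset.coe_biUnion, Set.mem_iUnion, Finset.mem_coe, Finset.mem_image]
        refine ⟨(s, s'), Finset.mem_product.2 ⟨Finset.mem_Icc.2 ⟨a1.trans a2, hs⟩,
          Finset.mem_Icc.2 ⟨a1, a2.trans hs⟩⟩, s' * m, ?_, ?_⟩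
        · rw [hU, Finset.mem_filter, Finset.mem_Icc]
          exact ⟨⟨a3.1, (Nat.mul_le_mul_right m a2).trans hn2⟩, a3⟩
        · simp only
          rw [Nat.mul_div_cancel_left m (by omega)]
      · left
        exact ⟨⟨hn1, hg⟩, hn1, hn2⟩
    unfold cnt
    refine (Set.ncard_le_ncard hsub (((Set.finite_Icc 1 N).inter_of_right _).union
      (Finset.finite_toSet _))).trans ?_
    refine (Set.ncard_union_le _ _).trans ?_
    rw [Set.ncard_coe_finset]
    apply Nat.add_le_add_left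
    refine Finset.card_biUnion_le.trans ?_
    refine (Finset.sum_le_sum (g := fun _ => U.card) fun p _ => Finset.card_image_le).trans ?_
    rw [Finset.sum_const, Finset.card_product, Nat.card_Icc, Nat.add_sub_cancel, smul_eq_mul]
  have hcov' : (cnt (Di A Greedy) N : ℝ) ≤ cnt {n | 1 ≤ n ∧ ¬ Good S n} N + S * S * (cnt (Un A) N : ℝ) := by
    rw [hUc]
    exact_mod_cast hcov
  have h3 : (S : ℝ) * S * (cnt (Un A) N : ℝ) ≤ ε / 2 * N := by
    have hN0 : (0 : ℝ) ≤ N := Nat.cast_nonneg N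
    have hS0 : (0 : ℝ) ≤ S := Nat.cast_nonneg S
    calc (S : ℝ) * S * (cnt (Un A) N : ℝ) ≤ S * S * (κ * N) := by gcongr
      _ ≤ ((S : ℝ) + 1) ^ 2 * (κ * N) := by
          apply mul_le_mul_of_nonneg_right _ (by positivity)
          nlinarith
      _ = ε / 2 * N := by rw [hκ]; field_simp
  linarith

lemma dens_greedy {α : ℝ} (hα : Extremal α) {A : Set ℕ} (hA : GF A) (hAp : ∀ n ∈ A, 1 ≤ n)
    (hd : Dens A α) : Tendsto (fun N : ℕ => (cnt Greedy N : ℝ) / N) atTop (𝓝 α) := by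
  have h0 : Tendsto (fun N : ℕ => (cnt (Di A Greedy) N : ℝ) / N) atTop (𝓝 0) := by
    rw [Metric.tendsto_atTop]
    intro ε hε
    obtain ⟨N0, hN0⟩ := di_zero hα hA hAp hd (ε := ε / 2) (by positivity)
    refine ⟨N0 + 1, fun N hN => ?_⟩
    have hNpos : (0 : ℝ) < N := by exact_mod_cast (by omega : 0 < N)
    rw [Real.dist_eq, sub_zero, abs_of_nonneg (by positivity), div_lt_iff₀ hNpos]
    have := hN0 N (by omega)
    nlinarith
  have hdiff : ∀ N : ℕ, |(cnt Greedy N : ℝ) / N - (cnt A N : ℝ) / N| ≤ (cnt (Di A Greedy) N : ℝ) / N := by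
    intro N
    have f : ∀ E : Set ℕ, (E ∩ Set.Icc 1 N).Finite := fun E => (Set.finite_Icc 1 N).inter_of_right _
    have h1 : cnt Greedy N ≤ cnt A N + cnt (Di A Greedy) N := by
      unfold cnt
      refine (Set.ncard_le_ncard ?_ ((f _).union (f _))).trans (Set.ncard_union_le _ _)
      rintro n ⟨a1, a2, a3⟩
      by_cases hn : n ∈ A
      · left; exact ⟨hn, a2, a3⟩
      · right; exact ⟨⟨a2, fun h => hn (h.2 a1)⟩, a2, a3⟩
    have h2 : cnt A N ≤ cnt Greedy N + cnt (Di A Greedy) N := by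
      unfold cnt
      refine (Set.ncard_le_ncard ?_ ((f _).union (f _))).trans (Set.ncard_union_le _ _)
      rintro n ⟨a1, a2, a3⟩
      by_cases hn : n ∈ Greedy
      · left; exact ⟨hn, a2, a3⟩
      · right; exact ⟨⟨a2, fun h => hn (h.1 a1)⟩, a2, a3⟩
    have h1' : (cnt Greedy N : ℝ) ≤ cnt A N + cnt (Di A Greedy) N := by exact_mod_cast h1
    have h2' : (cnt A N : ℝ) ≤ cnt Greedy N + cnt (Di A Greedy) N := by exact_mod_cast h2
    rw [← sub_div, abs_div, abs_of_nonneg (Nat.cast_nonneg N : (0 : ℝ) ≤ N)]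
    gcongr
    rw [abs_le]
    constructor <;> linarith
  have h1 : Tendsto (fun N : ℕ => (cnt Greedy N : ℝ) / N - (cnt A N : ℝ) / N) atTop (𝓝 0) := by
    rw [tendsto_zero_iff_abs_tendsto_zero]
    exact squeeze_zero (fun N => abs_nonneg _) hdiff h0
  have := h1.add hd
  simpa using this

/-- The largest density is not extremal for finite sets. -/
theorem not_extremal {α : ℝ} {A : Set ℕ} (hA : GF A) (hAp : ∀ n ∈ A, 1 ≤ n) (hd : Dens A α)
    (hmax : ∀ (B : Set ℕ) (d : ℝ), (∀ n ∈ B, 1 ≤ n) → GF B → Dens B d → d ≤ α) : ¬ Extremal α := by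
  intro hα
  obtain ⟨B, d, b1, b2, b3, b4⟩ := GP.main α (dens_greedy hα hA hAp hd)
  exact absurd (hmax B d b1 b2 b3) (not_le.2 b4)

/-- There is a set without geometric progressions whose upper density exceeds all densities. -/
theorem exists_upper {α : ℝ} {A : Set ℕ} (hA : GF A) (hAp : ∀ n ∈ A, 1 ≤ n) (hd : Dens A α)
    (hmax : ∀ (B : Set ℕ) (d : ℝ), (∀ n ∈ B, 1 ≤ n) → GF B → Dens B d → d ≤ α) :
    ∃ A' : Set ℕ, (∀ n ∈ A', 1 ≤ n) ∧ GF A' ∧
    ∃ ε > 0, ∀ N0 : ℕ, ∃ N ≥ N0, 1 ≤ N ∧ (α + ε) * N ≤ (cnt A' N : ℝ) :=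
  glue (not_extremal hA hAp hd hmax)

end Pool.Agent.Q239.GPD
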